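import Mathlib

/-!
Eight operations on labelled graphs. A labelled graph is a finite graph whose vertices are natural
numbers, together with a marked set `S` of vertices.
-/

namespace Pool.Agent.Work.MP_4489ea_co.HJ

open SimpleGraph

/-- A labelled graph: vertex set `V`, edges `G`, marked vertices `S`. -/
structure LG where
  V : Finset ℕ
  G : SimpleGraph ℕ
  S : Finset ℕ

/-- Marked vertices and ends of edges are vertices. -/
def LG.WF (H : LG) : Prop := H.S ⊆ H.V ∧ ∀ u v, H.G.Adj u v → u ∈ H.V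

/-- The unmarked vertices. -/
def LG.T (H : LG) : Finset ℕ := H.V \ H.S

/-- Union of vertices, of edges and of marked vertices. -/
def LG.add (H P : LG) : LG := ⟨H.V ∪ P.V, H.G ⊔ P.G, H.S ∪ P.S⟩

/-- Add the edge `u v`. -/
def LG.join (H : LG) (u v : ℕ) : LG := H.add ⟨∅, edge u v, ∅⟩

/-- Add an edge `a l` on two vertices, `a` marked. -/
def LG.addK2 (H : LG) (a l : ℕ) : LG := H.add ⟨{a, l}, edge a l, {a}⟩

/-- Names of the three gadgets. -/
inductive Gad
  | leaf (s : ℕ)
  | link (s x : ℕ)
  | claw (x : ℕ)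

/-- `Att H g H'`: `H'` is `H` with the gadget `g` attached on new vertices. A leaf at a marked
vertex `s`; a link, a new common neighbour of a marked `s` and an unmarked `x`; a claw `K₁,₃` with
marked centre `a`, one of whose leaves is joined to an unmarked `x`. -/
inductive Att (H : LG) : Gad → LG → Prop
  | leaf {s w : ℕ} : s ∈ H.S → w ∉ H.V → Att H (.leaf s) (H.add ⟨{w}, edge w s, ∅⟩)
  | link {s x w : ℕ} : s ∈ H.S → x ∈ H.T → w ∉ H.V →
      Att H (.link s x) (H.add ⟨{w}, edge w s ⊔ edge w x, ∅⟩)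
  | claw {x w a l m : ℕ} : x ∈ H.T → [w, a, l, m].Nodup → (∀ u ∈ [w, a, l, m], u ∉ H.V) →
      Att H (.claw x)
        (H.add ⟨{w, a, l, m}, edge w x ⊔ edge w a ⊔ edge l a ⊔ edge m a, {a}⟩)

/-- Attach a list of gadgets one after the other. -/
inductive Atts : LG → List Gad → LG → Prop
  | nil (H : LG) : Atts H [] H
  | cons {H H' H'' : LG} {g : Gad} {L : List Gad} :
      Att H g H' → Atts H' L H'' → Atts H (g :: L) H''

/-- The guard at `v`: a leaf if `v` is marked, a claw otherwise. -/
def LG.guard (H : LG) (v : ℕ) : Gad := if v ∈ H.S then .leaf v else .claw v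

/-- The link between `y` and a vertex `z` of the other side. -/
def LG.lk (H : LG) (y z : ℕ) : Gad := if y ∈ H.S then .link y z else .link z y

/-- `L` binds `u` and `v`: a guard at each, or two links from each to one vertex `z`. -/
def Bind (H : LG) (u v : ℕ) (L : List Gad) : Prop :=
  L = [H.guard u, H.guard v] ∨ ∃ z, L = [H.lk u z, H.lk u z, H.lk v z, H.lk v z]

/-- The labelled graphs generated from the empty graph by the operations O1 to O8. -/
inductive Gen : LG → Prop
  | empty : Gen ⟨∅, ⊥, ∅⟩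
  /-- O1: add a component `K₂` with one end marked. -/
  | o1 {H : LG} {a l : ℕ} : Gen H → a ∉ H.V → l ∉ H.V → a ≠ l → Gen (H.addK2 a l)
  /-- O2: attach a gadget. -/
  | o2 {H H' : LG} {g : Gad} : Gen H → Att H g H' → Gen H'
  /-- O3: join two vertices of one side and bind them. -/
  | o3 {H H' : LG} {u v : ℕ} {L : List Gad} : Gen H →
      (u ∈ H.S ∧ v ∈ H.S ∨ u ∈ H.T ∧ v ∈ H.T) → Bind H u v L → Atts (H.join u v) L H' → Gen H'
  /-- O4, marked side: join `v` to `y` and `y'` and guard `y` and `y'`. -/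
  | o4S {H H' : LG} {v y y' : ℕ} : Gen H → v ∈ H.S → y ∈ H.S → y' ∈ H.S → y ≠ y' →
      Atts ((H.join v y).join v y') [.leaf y, .leaf y'] H' → Gen H'
  /-- O4, unmarked side: join `v` to `y` and `y'`, guard `v` twice and bind `y` and `y'`. -/
  | o4T {H H' : LG} {v y y' : ℕ} {L : List Gad} : Gen H → v ∈ H.T → y ∈ H.T → y' ∈ H.T →
      y ≠ y' → Bind H y y' L →
      Atts ((H.join v y).join v y') (.claw v :: .claw v :: L) H' → Gen H'
  /-- O5: a star with marked centre `a`, joined only to a marked `s`, is replaced by an unmarked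
  vertex `a` adjacent to `s` and to unmarked `t`, `t'`; then a leaf at `s` or a link `s a` is
  attached. -/
  | o5 {H P H' : LG} {a s t t' k : ℕ} {g : Gad} : H.WF → a ∉ H.V → s ∈ H.S → t ∈ H.T →
      t' ∈ H.T → Atts (H.add ⟨{a}, edge a s, {a}⟩) (List.replicate k (.leaf a)) P → Gen P →
      (g = .leaf s ∨ g = .link s a) →
      Att (H.add ⟨{a}, edge a s ⊔ edge a t ⊔ edge a t', ∅⟩) g H' → Gen H'
  /-- O6: a leaf at `s` is replaced by links `s x`, `s x`, `p x` and a leaf at `p`. -/
  | o6 {H P H' : LG} {s x p : ℕ} : H.WF → Att H (.leaf s) P → Gen P →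
      Atts H [.link s x, .link s x, .link p x, .leaf p] H' → Gen H'
  /-- O7: a `K₂` on `a`, `l` is deleted together with links between `a`, `l` and one vertex `v`. -/
  | o7 {H P : LG} {a l v : ℕ} {L : List Gad} : H.WF → a ∉ H.V → l ∉ H.V → a ≠ l →
      (∀ g ∈ L, g = .link a l ∨ g = .link a v ∨ g = .link v l) →
      Atts (H.addK2 a l) L P → Gen P → Gen H
  /-- O8: `H` is obtained from `H` plus a leaf at `s`, `H` plus a claw at `x` and `H` plus a link
  `s x`. -/
  | o8 {H P Q R : LG} {s x : ℕ} : H.WF → Att H (.leaf s) P → Att H (.claw x) Q →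
      Att H (.link s x) R → Gen P → Gen Q → Gen R → Gen H

end Pool.Agent.Work.MP_4489ea_co.HJ
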