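import Mathlib
import Pool.Agent.Work.MP_4489ea_co.Basic
import Pool.Agent.Work.MP_4489ea_co.HJ.Defs

-- merged part: Pool.Agent.Work.MP_4489ea_co.HJ.Tok
section
-- merged part: Pool.Agent.Work.MP_4489ea_co.HJ.Wt
section
/-!
The weight of a vertex set in a labelled graph and its behaviour under adding vertices and edges.
-/

namespace Pool.Agent.Work.MP_4489ea_co.HJ

open SimpleGraph

theorem LG.ext' {K K' : LG} (h1 : K.V = K'.V) (h2 : ∀ u v, K.G.Adj u v ↔ K'.G.Adj u v)
    (h3 : K.S = K'.S) : K = K' := by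
  obtain ⟨V, G, S⟩ := K
  obtain ⟨V', G', S'⟩ := K'
  have : G = G' := by ext u v; exact h2 u v
  simp_all

@[simp] theorem LG.add_V (H P : LG) : (H.add P).V = H.V ∪ P.V := rfl
@[simp] theorem LG.add_G (H P : LG) : (H.add P).G = H.G ⊔ P.G := rfl
@[simp] theorem LG.add_S (H P : LG) : (H.add P).S = H.S ∪ P.S := rfl
@[simp] theorem LG.join_V (H : LG) (u v : ℕ) : (H.join u v).V = H.V := by simp [LG.join]
@[simp] theorem LG.join_G (H : LG) (u v : ℕ) : (H.join u v).G = H.G ⊔ edge u v := rfl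
@[simp] theorem LG.join_S (H : LG) (u v : ℕ) : (H.join u v).S = H.S := by simp [LG.join]
@[simp] theorem LG.addK2_V (H : LG) (a l : ℕ) : (H.addK2 a l).V = H.V ∪ {a, l} := rfl
@[simp] theorem LG.addK2_G (H : LG) (a l : ℕ) : (H.addK2 a l).G = H.G ⊔ edge a l := rfl
@[simp] theorem LG.addK2_S (H : LG) (a l : ℕ) : (H.addK2 a l).S = H.S ∪ {a} := rfl
@[simp] theorem LG.mem_T (H : LG) (v : ℕ) : v ∈ H.T ↔ v ∈ H.V ∧ v ∉ H.S := by simp [LG.T]

/-- The weight of the cheapest perfect Roman dominating function with `2`-set `D`. -/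
noncomputable def LG.wt (K : LG) (D : Finset ℕ) : ℕ := ∑ v ∈ K.V, cst K.G D v

theorem cst_congr {G G' : SimpleGraph ℕ} {D D' : Finset ℕ} {v : ℕ} (h1 : v ∈ D ↔ v ∈ D')
    (h2 : v ∉ D → ∀ u, u ∈ D ∧ G.Adj v u ↔ u ∈ D' ∧ G'.Adj v u) : cst G D v = cst G' D' v := by
  by_cases hv : v ∈ D
  · rw [cst_mem G hv, cst_mem G' (h1.1 hv)]
  · have hv' : v ∉ D' := fun h => hv (h1.2 h)
    have e : (∃! u, u ∈ D ∧ G.Adj v u) ↔ ∃! u, u ∈ D' ∧ G'.Adj v u :=
      existsUnique_congr (h2 hv)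
    by_cases h : ∃! u, u ∈ D ∧ G.Adj v u
    · rw [cst_good G hv h, cst_good G' hv' (e.1 h)]
    · rw [cst_bad G hv h, cst_bad G' hv' fun h' => h (e.2 h')]

theorem cst_le_one (G : SimpleGraph ℕ) {D : Finset ℕ} {v : ℕ} (h : v ∉ D) : cst G D v ≤ 1 := by
  by_cases h' : ∃! u, u ∈ D ∧ G.Adj v u
  · rw [cst_good G h h']; omega
  · rw [cst_bad G h h']

theorem cst_mono {G G' : SimpleGraph ℕ} (hG : G ≤ G') {D : Finset ℕ} {v : ℕ}
    (h : v ∉ D → (∀ u ∈ D, ¬ G.Adj v u) → ¬ ∃! u, u ∈ D ∧ G'.Adj v u) :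
    cst G D v ≤ cst G' D v := by
  by_cases hv : v ∈ D
  · rw [cst_mem G hv, cst_mem G' hv]
  · by_cases h' : ∃! u, u ∈ D ∧ G'.Adj v u
    · have h1 : ∃ u ∈ D, G.Adj v u := by
        by_contra hc
        exact h hv (fun u hu ha => hc ⟨u, hu, ha⟩) h'
      obtain ⟨u, hu, ha⟩ := h1
      rw [cst_good G hv ⟨u, ⟨hu, ha⟩, fun y hy => h'.unique ⟨hy.1, hG hy.2⟩ ⟨hu, hG ha⟩⟩]
      omega
    · rw [cst_bad G' hv h']; exact cst_le_one G hv

theorem sum_ite_le (V X : Finset ℕ) : ∑ v ∈ V, (if v ∈ X then 1 else 0) ≤ X.card := by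
  rw [← Finset.card_filter]
  exact Finset.card_le_card fun v hv => (Finset.mem_filter.1 hv).2

theorem wt_congr {K : LG} (hK : ∀ u v, K.G.Adj u v → u ∈ K.V) {D D' : Finset ℕ}
    (h : ∀ v ∈ K.V, v ∈ D ↔ v ∈ D') : K.wt D = K.wt D' := by
  refine Finset.sum_congr rfl fun v hv => cst_congr (h v hv) fun _ u => ?_
  exact ⟨fun ⟨a, b⟩ => ⟨(h u (hK u v b.symm)).1 a, b⟩, fun ⟨a, b⟩ => ⟨(h u (hK u v b.symm)).2 a, b⟩⟩

theorem wt_low {K K' : LG} (D X : Finset ℕ) (hV : K.V ⊆ K'.V) (hG : K.G ≤ K'.G)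
    (h : ∀ v ∈ K.V, v ∉ D → (∀ u ∈ D, ¬ K.G.Adj v u) → (∃! u, u ∈ D ∧ K'.G.Adj v u) → v ∈ X) :
    K.wt D + ∑ v ∈ K'.V \ K.V, cst K'.G D v ≤ K'.wt D + X.card := by
  have h1 : K'.wt D = ∑ v ∈ K'.V \ K.V, cst K'.G D v + ∑ v ∈ K.V, cst K'.G D v :=
    (Finset.sum_sdiff hV).symm
  have h2 : K.wt D ≤ ∑ v ∈ K.V, (cst K'.G D v + if v ∈ X then 1 else 0) := by
    refine Finset.sum_le_sum fun v hv => ?_
    by_cases hX : v ∈ X
    · rw [if_pos hX]
      by_cases hD : v ∈ D
      · rw [cst_mem _ hD, cst_mem _ hD]; omega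
      · have := cst_le_one K.G hD; omega
    · rw [if_neg hX]
      exact cst_mono hG fun a b c => hX (h v hv a b c)
  rw [Finset.sum_add_distrib] at h2
  have := sum_ite_le K.V X
  omega

theorem wt_up {K K' : LG} (D X : Finset ℕ) (hV : K.V ⊆ K'.V)
    (h : ∀ v ∈ K.V, v ∉ X → v ∉ D → ∀ u ∈ D, K.G.Adj v u ↔ K'.G.Adj v u) :
    K'.wt D ≤ K.wt D + ∑ v ∈ K'.V \ K.V, cst K'.G D v + X.card := by
  have h1 : K'.wt D = ∑ v ∈ K'.V \ K.V, cst K'.G D v + ∑ v ∈ K.V, cst K'.G D v :=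
    (Finset.sum_sdiff hV).symm
  have h2 : ∑ v ∈ K.V, cst K'.G D v ≤
      ∑ v ∈ K.V, (cst K.G D v + if v ∈ X then 1 else 0) := by
    refine Finset.sum_le_sum fun v hv => ?_
    by_cases hX : v ∈ X
    · rw [if_pos hX]
      by_cases hD : v ∈ D
      · rw [cst_mem _ hD, cst_mem _ hD]; omega
      · have := cst_le_one K'.G hD; omega
    · rw [if_neg hX, cst_congr (G := K.G) (G' := K'.G) (D' := D) Iff.rfl]
      · omega
      · intro hD u
        exact and_congr_right fun hu => h v hv hX hD u hu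
  rw [Finset.sum_add_distrib] at h2
  have := sum_ite_le K.V X
  unfold LG.wt at *
  omega

/-- `K'` is `K` with a new vertex `w` whose neighbourhood is `N`. -/
structure NV (K : LG) (w : ℕ) (N : Finset ℕ) (K' : LG) : Prop where
  wf : ∀ u v, K.G.Adj u v → u ∈ K.V
  fresh : w ∉ K.V
  sub : N ⊆ K.V
  hV : K'.V = insert w K.V
  adj : ∀ u v, K'.G.Adj u v ↔ K.G.Adj u v ∨ (u = w ∧ v ∈ N) ∨ (v = w ∧ u ∈ N)

namespace NV

variable {K K' : LG} {w : ℕ} {N : Finset ℕ}

theorem wf' (h : NV K w N K') : ∀ u v, K'.G.Adj u v → u ∈ K'.V := by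
  intro u v ha
  rw [h.hV, Finset.mem_insert]
  rcases (h.adj u v).1 ha with a | a | a
  · exact Or.inr (h.wf u v a)
  · exact Or.inl a.1
  · exact Or.inr (h.sub a.2)

theorem subV (h : NV K w N K') : K.V ⊆ K'.V := by rw [h.hV]; exact Finset.subset_insert _ _

theorem le (h : NV K w N K') : K.G ≤ K'.G := fun u v ha => (h.adj u v).2 (Or.inl ha)

theorem sdiff (h : NV K w N K') : K'.V \ K.V = {w} := by
  rw [h.hV]
  ext u
  have := h.fresh
  simp only [Finset.mem_sdiff, Finset.mem_insert, Finset.mem_singleton]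
  constructor
  · rintro ⟨a | a, b⟩
    · exact a
    · exact absurd a b
  · rintro rfl; exact ⟨Or.inl rfl, this⟩

theorem adj_w (h : NV K w N K') (u : ℕ) : K'.G.Adj w u ↔ u ∈ N := by
  rw [h.adj]
  constructor
  · rintro (a | a | a)
    · exact absurd (h.wf _ _ a) h.fresh
    · exact a.2
    · exact absurd (h.sub a.2) h.fresh
  · intro a; exact Or.inr (Or.inl ⟨rfl, a⟩)

theorem adj_old (h : NV K w N K') {v u : ℕ} (hv : v ∈ K.V) (hu : u ≠ w) :
    K.G.Adj v u ↔ K'.G.Adj v u := by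
  rw [h.adj]
  constructor
  · exact Or.inl
  · rintro (a | a | a)
    · exact a
    · exact absurd (a.1 ▸ hv) h.fresh
    · exact absurd a.1 hu

theorem out (h : NV K w N K') {D : Finset ℕ} (hw : w ∉ D) :
    K'.wt D = K.wt D + cst K'.G D w := by
  have a := wt_low D ∅ h.subV h.le (by
    intro v hv _ h1 ⟨u, ⟨hu, ha⟩, _⟩
    exact absurd ((h.adj_old hv fun e => hw (e ▸ hu)).2 ha) (h1 u hu))
  have b := wt_up D ∅ h.subV (fun v hv _ _ u hu => h.adj_old hv fun e => hw (e ▸ hu))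
  rw [h.sdiff, Finset.sum_singleton, Finset.card_empty] at a b
  omega

theorem out_le (h : NV K w N K') {D : Finset ℕ} (hw : w ∉ D) : K.wt D ≤ K'.wt D := by
  rw [h.out hw]; omega

theorem out_good (h : NV K w N K') {D : Finset ℕ} (hw : w ∉ D) (h1 : ∃! u, u ∈ D ∧ u ∈ N) :
    K'.wt D = K.wt D := by
  rw [h.out hw, cst_good _ hw (by simpa only [h.adj_w] using h1)]; rfl

theorem out_bad (h : NV K w N K') {D : Finset ℕ} (hw : w ∉ D) (h1 : ¬ ∃! u, u ∈ D ∧ u ∈ N) :
    K'.wt D = K.wt D + 1 := by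
  rw [h.out hw, cst_bad _ hw (by simpa only [h.adj_w] using h1)]

theorem in_low (h : NV K w N K') {D : Finset ℕ} (hw : w ∈ D) (X : Finset ℕ)
    (hX : ∀ v ∈ N, v ∉ D → (∀ u ∈ D, ¬ K.G.Adj v u) → v ∈ X) :
    K.wt D + 2 ≤ K'.wt D + X.card := by
  have a := wt_low D X h.subV h.le (by
    intro v hv h0 h1 ⟨u, ⟨hu, ha⟩, _⟩
    rcases (h.adj v u).1 ha with b | b | b
    · exact absurd b (h1 u hu)
    · exact absurd (b.1 ▸ hv) h.fresh
    · exact hX v b.2 h0 h1)
  rwa [h.sdiff, Finset.sum_singleton, cst_mem _ hw] at a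

theorem in_up (h : NV K w N K') {D : Finset ℕ} (hw : w ∈ D) (X : Finset ℕ)
    (hX : ∀ v ∈ N, v ∉ D → v ∈ X) : K'.wt D ≤ K.wt D + 2 + X.card := by
  have a := wt_up D X h.subV (by
    intro v hv h0 h1 u _
    rw [h.adj]
    constructor
    · exact Or.inl
    · rintro (b | b | b)
      · exact b
      · exact absurd (b.1 ▸ hv) h.fresh
      · exact absurd (hX v b.2 h1) h0)
  rwa [h.sdiff, Finset.sum_singleton, cst_mem _ hw] at a

end NV

theorem nv_iso {K : LG} (hK : K.WF) {a : ℕ} (ha : a ∉ K.V) (Z : Finset ℕ) :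
    NV K a ∅ (K.add ⟨{a}, ⊥, Z⟩) :=
  ⟨hK.2, ha, Finset.empty_subset _, by simp, by simp⟩

theorem nv_one {K : LG} (hK : ∀ u v, K.G.Adj u v → u ∈ K.V) {w s : ℕ} (hw : w ∉ K.V)
    (hs : s ∈ K.V) (Z : Finset ℕ) : NV K w {s} (K.add ⟨{w}, edge w s, Z⟩) := by
  refine ⟨hK, hw, by simpa using hs, by simp, ?_⟩
  have : w ≠ s := fun e => hw (e ▸ hs)
  intro u v
  simp only [LG.add_G, sup_adj, edge_adj, Finset.mem_singleton]
  grind

theorem nv_two {K : LG} (hK : ∀ u v, K.G.Adj u v → u ∈ K.V) {w s x : ℕ} (hw : w ∉ K.V)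
    (hs : s ∈ K.V) (hx : x ∈ K.V) :
    NV K w {s, x} (K.add ⟨{w}, edge w s ⊔ edge w x, ∅⟩) := by
  refine ⟨hK, hw, by simp [Finset.insert_subset_iff, hs, hx],
    by simp, ?_⟩
  have : w ≠ s := fun e => hw (e ▸ hs)
  have : w ≠ x := fun e => hw (e ▸ hx)
  intro u v
  simp only [LG.add_G, sup_adj, edge_adj, Finset.mem_singleton, Finset.mem_insert]
  grind

theorem nv_three {K : LG} (hK : ∀ u v, K.G.Adj u v → u ∈ K.V) {w s x y : ℕ} (hw : w ∉ K.V)
    (hs : s ∈ K.V) (hx : x ∈ K.V) (hy : y ∈ K.V) :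
    NV K w {s, x, y} (K.add ⟨{w}, edge w s ⊔ edge w x ⊔ edge w y, ∅⟩) := by
  refine ⟨hK, hw, by simp [Finset.insert_subset_iff, hs, hx, hy],
    by simp, ?_⟩
  have : w ≠ s := fun e => hw (e ▸ hs)
  have : w ≠ x := fun e => hw (e ▸ hx)
  have : w ≠ y := fun e => hw (e ▸ hy)
  intro u v
  simp only [LG.add_G, sup_adj, edge_adj, Finset.mem_singleton, Finset.mem_insert]
  grind

end Pool.Agent.Work.MP_4489ea_co.HJ
end

-- merged part: Pool.Agent.Work.MP_4489ea_co.HJ.Gadget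
section
/-!
What a gadget costs.
-/

namespace Pool.Agent.Work.MP_4489ea_co.HJ

open SimpleGraph

/-- Excess of the weight of `D` over twice the number of marked vertices. -/
noncomputable def LG.ex (K : LG) (D : Finset ℕ) : ℤ := (K.wt D : ℤ) - 2 * K.S.card

theorem ex_congr {K : LG} (hK : K.WF) {D D' : Finset ℕ} (h : ∀ v ∈ K.V, v ∈ D ↔ v ∈ D') :
    K.ex D = K.ex D' := by
  unfold LG.ex; rw [wt_congr hK.2 h]

theorem wf_k2 {K : LG} (hK : K.WF) (a l : ℕ) : (K.addK2 a l).WF := by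
  refine ⟨?_, ?_⟩
  · intro u hu
    have := @hK.1 u
    simp only [LG.addK2_S, LG.addK2_V, Finset.mem_union, Finset.mem_singleton,
      Finset.mem_insert] at hu ⊢
    tauto
  · intro u v h
    have := hK.2 u v
    simp only [LG.addK2_G, LG.addK2_V, sup_adj, edge_adj, Finset.mem_union, Finset.mem_singleton,
      Finset.mem_insert] at h ⊢
    tauto

theorem card_S_add {K : LG} (hK : K.WF) {a : ℕ} (ha : a ∉ K.V) :
    (K.S ∪ {a}).card = K.S.card + 1 := by
  rw [Finset.union_singleton, Finset.card_insert_of_notMem fun h => ha (hK.1 h)]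

theorem k2_eq (K : LG) (a l : ℕ) :
    K.addK2 a l = (K.add ⟨{a}, ⊥, {a}⟩).add ⟨{l}, edge l a, ∅⟩ := by
  refine LG.ext' ?_ ?_ ?_
  · ext u; simp
  · intro u v; simp [edge_comm a l]
  · simp

theorem not_uniq_one {D : Finset ℕ} {a : ℕ} (h : a ∉ D) :
    ¬ ∃! u, u ∈ D ∧ u ∈ ({a} : Finset ℕ) := by
  rintro ⟨u, ⟨h1, h2⟩, -⟩
  exact h (Finset.mem_singleton.1 h2 ▸ h1)

theorem nv_k2 {K : LG} (hK : K.WF) {a l : ℕ} (ha : a ∉ K.V) (hl : l ∉ K.V) (hal : a ≠ l) :
    NV (K.add ⟨{a}, ⊥, {a}⟩) l {a} (K.addK2 a l) := by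
  rw [k2_eq]
  exact nv_one (nv_iso hK ha _).wf' (by simp [hl, hal.symm]) (by simp) _

theorem k2_low {K : LG} (hK : K.WF) {a l : ℕ} (ha : a ∉ K.V) (hl : l ∉ K.V) (hal : a ≠ l)
    (D : Finset ℕ) : K.ex D ≤ (K.addK2 a l).ex D := by
  have n1 := nv_iso hK ha {a}
  have n2 := nv_k2 hK ha hl hal
  unfold LG.ex
  rw [LG.addK2_S, card_S_add hK ha]
  by_cases h1 : a ∈ D
  · have a1 := n1.in_low h1 ∅ (by simp)
    by_cases h2 : l ∈ D
    · have a2 := n2.in_low h2 ∅ (by simp [h1])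
      simp only [Finset.card_empty] at a1 a2
      omega
    · have a2 := n2.out_le h2
      simp only [Finset.card_empty] at a1
      omega
  · have a1 := n1.out_bad h1 (by simp)
    by_cases h2 : l ∈ D
    · have a2 := n2.in_low h2 {a} (by simp)
      simp only [Finset.card_singleton] at a2
      omega
    · have a2 := n2.out_bad h2 (not_uniq_one h1)
      omega

theorem k2_up_a {K : LG} (hK : K.WF) {a l : ℕ} (ha : a ∉ K.V) (hl : l ∉ K.V) (hal : a ≠ l)
    {D : Finset ℕ} (h1 : a ∈ D) (h2 : l ∉ D) : (K.addK2 a l).ex D ≤ K.ex D := by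
  have n1 := nv_iso hK ha {a}
  have n2 := nv_k2 hK ha hl hal
  unfold LG.ex
  rw [LG.addK2_S, card_S_add hK ha]
  have a1 := n1.in_up h1 ∅ (by simp)
  have a2 := n2.out_good h2 ⟨a, by simp [h1], by simp⟩
  simp only [Finset.card_empty] at a1
  omega

theorem k2_up_l {K : LG} (hK : K.WF) {a l : ℕ} (ha : a ∉ K.V) (hl : l ∉ K.V) (hal : a ≠ l)
    {D : Finset ℕ} (h1 : a ∉ D) (h2 : l ∈ D) : (K.addK2 a l).ex D ≤ K.ex D := by
  have n1 := nv_iso hK hl {a}
  have n2 : NV (K.add ⟨{l}, ⊥, {a}⟩) a {l} (K.addK2 a l) := by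
    have e : K.addK2 a l = (K.add ⟨{l}, ⊥, {a}⟩).add ⟨{a}, edge a l, ∅⟩ := by
      refine LG.ext' ?_ ?_ ?_
      · ext u; simp; tauto
      · intro u v; simp
      · simp
    rw [e]
    exact nv_one n1.wf' (by simp [ha, hal]) (by simp) _
  unfold LG.ex
  rw [LG.addK2_S, card_S_add hK ha]
  have a1 := n1.in_up h2 ∅ (by simp)
  have a2 := n2.out_good h1 ⟨l, by simp [h2], by simp⟩
  simp only [Finset.card_empty] at a1
  omega

theorem leaf_low {K : LG} (hK : K.WF) {s w : ℕ} (hs : s ∈ K.V) (hw : w ∉ K.V) (D : Finset ℕ) :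
    K.ex D + (if s ∈ D then 0 else 1) ≤ (K.add ⟨{w}, edge w s, ∅⟩).ex D := by
  have n1 := nv_one hK.2 hw hs ∅
  unfold LG.ex
  rw [LG.add_S, Finset.union_empty]
  by_cases h1 : w ∈ D
  · have a1 := n1.in_low h1 {s} (by simp)
    simp only [Finset.card_singleton] at a1
    split_ifs <;> omega
  · split_ifs with h2
    · have := n1.out_le h1
      omega
    · have := n1.out_bad h1 (not_uniq_one h2)
      omega

theorem leaf_up {K : LG} (hK : K.WF) {s w : ℕ} (hs : s ∈ K.V) (hw : w ∉ K.V) {D : Finset ℕ}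
    (h1 : s ∈ D) (h2 : w ∉ D) : (K.add ⟨{w}, edge w s, ∅⟩).ex D ≤ K.ex D := by
  have n1 := nv_one hK.2 hw hs ∅
  unfold LG.ex
  rw [LG.add_S, Finset.union_empty, n1.out_good h2 ⟨s, by simp [h1], by simp⟩]

theorem link_low {K : LG} (hK : K.WF) {s x w : ℕ} (hs : s ∈ K.V) (hx : x ∈ K.V) (hsx : s ≠ x)
    (hw : w ∉ K.V) (D : Finset ℕ) :
    K.ex D + (if s ∈ D ∧ x ∈ D then 1 else 0) ≤
      (K.add ⟨{w}, edge w s ⊔ edge w x, ∅⟩).ex D := by
  have n1 := nv_two hK.2 hw hs hx
  unfold LG.ex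
  rw [LG.add_S, Finset.union_empty]
  by_cases h1 : w ∈ D
  · split_ifs with h2
    · have a1 := n1.in_low h1 ∅ (by simp [h2.1, h2.2])
      simp only [Finset.card_empty] at a1
      omega
    · have a1 := n1.in_low h1 {s, x} (fun v hv _ _ => hv)
      rw [Finset.card_pair hsx] at a1
      omega
  · split_ifs with h2
    · have := n1.out_bad h1 fun h =>
        hsx (h.unique ⟨h2.1, by simp⟩ ⟨h2.2, by simp⟩)
      omega
    · have := n1.out_le h1
      omega

theorem link_up {K : LG} (hK : K.WF) {s x w : ℕ} (hs : s ∈ K.V) (hx : x ∈ K.V)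
    (hw : w ∉ K.V) {D : Finset ℕ} (h1 : s ∈ D ↔ x ∉ D) (h2 : w ∉ D) :
    (K.add ⟨{w}, edge w s ⊔ edge w x, ∅⟩).ex D ≤ K.ex D := by
  have n1 := nv_two hK.2 hw hs hx
  unfold LG.ex
  rw [LG.add_S, Finset.union_empty, n1.out_good h2]
  by_cases h : s ∈ D
  · refine ⟨s, by simp [h], ?_⟩
    simp only [Finset.mem_insert, Finset.mem_singleton]
    rintro y ⟨a, rfl | rfl⟩
    · rfl
    · exact absurd a (h1.1 h)
  · have hx' : x ∈ D := by tauto
    refine ⟨x, by simp [hx'], ?_⟩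
    simp only [Finset.mem_insert, Finset.mem_singleton]
    rintro y ⟨a, rfl | rfl⟩
    · exact absurd a h
    · rfl

theorem wf_nv {K : LG} (hK : K.WF) {w : ℕ} {N : Finset ℕ} {E : SimpleGraph ℕ}
    (h : NV K w N (K.add ⟨{w}, E, ∅⟩)) : (K.add ⟨{w}, E, ∅⟩).WF :=
  ⟨fun u hu => h.subV (hK.1 (by simpa using hu)), h.wf'⟩

theorem claw_eq (K : LG) (x w a l m : ℕ) :
    K.add ⟨{w, a, l, m}, edge w x ⊔ edge w a ⊔ edge l a ⊔ edge m a, {a}⟩ =
      ((K.addK2 a l).add ⟨{m}, edge m a, ∅⟩).add ⟨{w}, edge w a ⊔ edge w x, ∅⟩ := by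
  refine LG.ext' ?_ ?_ ?_
  · ext u; simp; tauto
  · intro u v; simp [edge_comm a l]; tauto
  · simp

/-- What a gadget is sure to cost. -/
def pay (D : Finset ℕ) : Gad → ℤ
  | .leaf s => if s ∈ D then 0 else 1
  | .link s x => if s ∈ D ∧ x ∈ D then 1 else 0
  | .claw x => if x ∈ D then 1 else 0

theorem pay_nonneg (D : Finset ℕ) (g : Gad) : 0 ≤ pay D g := by
  cases g <;> simp only [pay] <;> split_ifs <;> omega

/-- When a gadget costs nothing. -/
def free (D : Finset ℕ) : Gad → Prop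
  | .leaf s => s ∈ D
  | .link s x => s ∈ D ↔ x ∉ D
  | .claw x => x ∉ D

/-- The ends of the gadget are on the right sides. -/
def Val (K : LG) : Gad → Prop
  | .leaf s => s ∈ K.S
  | .link s x => s ∈ K.S ∧ x ∈ K.V ∧ x ∉ K.S
  | .claw x => x ∈ K.V ∧ x ∉ K.S

namespace Att

variable {K K' : LG} {g : Gad}

theorem val (h : Att K g K') : Val K g := by
  cases h with
  | leaf a _ => exact a
  | link a b _ => exact ⟨a, by simpa using b⟩
  | claw a _ _ => simpa [Val] using a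

theorem subV (h : Att K g K') : K.V ⊆ K'.V := by
  cases h <;> exact Finset.subset_union_left

theorem le (h : Att K g K') : K.G ≤ K'.G := by
  cases h <;> exact le_sup_left

theorem mem_S (h : Att K g K') {v : ℕ} (hv : v ∈ K.V) : v ∈ K'.S ↔ v ∈ K.S := by
  cases h with
  | leaf => simp
  | link => simp
  | claw _ _ c =>
    simp only [LG.add_S, Finset.mem_union, Finset.mem_singleton]
    exact ⟨fun h => h.resolve_right fun e => c v (by simp [e]) hv, Or.inl⟩

theorem subS (h : Att K g K') : K.S ⊆ K'.S := by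
  cases h <;> exact Finset.subset_union_left

theorem all (h : Att K g K') (hK : K.WF) :
    K'.WF ∧ (∀ D, K.ex D + pay D g ≤ K'.ex D) ∧
      ∀ D ⊆ K.V, free D g → K'.ex (D ∪ (K'.S \ K.S)) ≤ K.ex D := by
  cases h with
  | leaf a b =>
    refine ⟨wf_nv hK (nv_one hK.2 b (hK.1 a) ∅), leaf_low hK (hK.1 a) b, fun D hD hf => ?_⟩
    rw [LG.add_S, Finset.union_empty, Finset.sdiff_self, Finset.union_empty]
    exact leaf_up hK (hK.1 a) b hf fun h => b (hD h)
  | link a b c =>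
    rw [LG.mem_T] at b
    refine ⟨wf_nv hK (nv_two hK.2 c (hK.1 a) b.1),
      link_low hK (hK.1 a) b.1 (fun e => b.2 (e ▸ a)) c, fun D hD hf => ?_⟩
    rw [LG.add_S, Finset.union_empty, Finset.sdiff_self, Finset.union_empty]
    exact link_up hK (hK.1 a) b.1 c hf fun h => c (hD h)
  | @claw x w a l m hx nd fr =>
    rw [LG.mem_T] at hx
    simp only [List.nodup_cons, List.mem_cons, List.not_mem_nil, or_false, not_or,
      not_false_eq_true, List.nodup_nil, and_true, forall_eq_or_imp, forall_eq] at nd fr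
    obtain ⟨⟨wa, wl, wm⟩, ⟨al, am⟩, lm⟩ := nd
    obtain ⟨fw, fa, fl, fm⟩ := fr
    have w1 := wf_k2 hK a l
    have m1 : m ∉ (K.addK2 a l).V := by simp [fm, Ne.symm am, Ne.symm lm]
    have a1 : a ∈ (K.addK2 a l).V := by simp
    have w2 := wf_nv w1 (nv_one w1.2 m1 a1 ∅)
    have m2 : w ∉ ((K.addK2 a l).add ⟨{m}, edge m a, ∅⟩).V := by simp [fw, wa, wl, wm]
    have a2 : a ∈ ((K.addK2 a l).add ⟨{m}, edge m a, ∅⟩).V := by simp
    have x2 : x ∈ ((K.addK2 a l).add ⟨{m}, edge m a, ∅⟩).V := by simp [hx.1]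
    have ax : a ≠ x := fun e => fa (e ▸ hx.1)
    have hS : (K.S ∪ {a}) \ K.S = {a} := by
      ext u
      simp only [Finset.mem_sdiff, Finset.mem_union, Finset.mem_singleton]
      exact ⟨fun h => h.1.resolve_left h.2, fun e => ⟨Or.inr e, fun h => fa (e ▸ hK.1 h)⟩⟩
    rw [LG.add_S, hS, claw_eq]
    refine ⟨wf_nv w2 (nv_two w2.2 m2 a2 x2), fun D => ?_, fun D hD hf => ?_⟩
    · have b1 := k2_low hK fa fl al D
      have b2 := leaf_low w1 a1 m1 D
      have b3 := link_low w2 a2 x2 ax m2 D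
      simp only [pay]
      by_cases h1 : a ∈ D <;> by_cases h2 : x ∈ D <;> simp only [h1, h2] at b2 b3 ⊢ <;>
        simp at b2 b3 ⊢ <;> omega
    · have aD : a ∈ D ∪ {a} := by simp
      have nD : ∀ u, u ∉ K.V → u ≠ a → u ∉ D ∪ {a} := by
        intro u h1 h2 h
        rcases Finset.mem_union.1 h with h | h
        · exact h1 (hD h)
        · exact h2 (by simpa using h)
      have xD : x ∉ D ∪ {a} := by
        simp only [free] at hf
        simp [hf, Ne.symm ax]
      have b0 : K.ex (D ∪ {a}) = K.ex D := ex_congr hK fun v hv => by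
        have : v ≠ a := fun e => fa (e ▸ hv)
        simp [this]
      have b1 := k2_up_a hK fa fl al aD (nD l fl (Ne.symm al))
      have b2 := leaf_up w1 a1 m1 aD (nD m fm (Ne.symm am))
      have b3 := link_up w2 a2 x2 m2 (D := D ∪ {a}) (by simp only [aD, xD, not_false_eq_true])
        (nD w fw wa)
      omega

theorem wf (h : Att K g K') (hK : K.WF) : K'.WF := (h.all hK).1

theorem low (h : Att K g K') (hK : K.WF) (D : Finset ℕ) : K.ex D + pay D g ≤ K'.ex D :=
  (h.all hK).2.1 D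

theorem up (h : Att K g K') (hK : K.WF) {D : Finset ℕ} (hD : D ⊆ K.V) (hf : free D g) :
    K'.ex (D ∪ (K'.S \ K.S)) ≤ K.ex D := (h.all hK).2.2 D hD hf

theorem upS (h : Att K g K') (hK : K.WF) : K'.ex K'.S ≤ K.ex K.S := by
  have hf : free K.S g := by
    have := h.val
    cases g <;> simp only [Val, free] at this ⊢ <;> tauto
  have := h.up hK hK.1 hf
  rwa [Finset.union_sdiff_of_subset h.subS] at this

end Att

theorem dbl_low {K K1 K2 : LG} {s x : ℕ} (h1 : Att K (.link s x) K1) (h2 : Att K1 (.link s x) K2)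
    (hK : K.WF) (D : Finset ℕ) :
    K.ex D + (if (s ∈ D ↔ x ∈ D) then 1 else 0) ≤ K2.ex D := by
  have l1 := h1.low hK D
  have l2 := h2.low (h1.wf hK) D
  have p := pay_nonneg D (.link s x)
  split_ifs with h
  swap
  · omega
  by_cases hs : s ∈ D
  · simp only [pay, hs, h.1 hs, and_self, if_true] at l1 l2
    omega
  have hx : x ∉ D := fun a => hs (h.2 a)
  have w1 := h1.wf hK
  cases h1 with
  | @link _ _ w a b c =>
  cases h2 with
  | @link _ _ w' a' b' c' =>
  rw [LG.mem_T] at b b'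
  have n1 := nv_two hK.2 c (hK.1 a) b.1
  have n2 := nv_two w1.2 c' (w1.1 a') b'.1
  have sx : s ≠ x := fun e => b.2 (e ▸ a)
  have bad : ¬ ∃! u, u ∈ D ∧ u ∈ ({s, x} : Finset ℕ) := by
    rintro ⟨u, ⟨a, b⟩, -⟩
    simp only [Finset.mem_insert, Finset.mem_singleton] at b
    rcases b with rfl | rfl <;> contradiction
  unfold LG.ex at l2 ⊢
  simp only [LG.add_S, Finset.union_empty] at l2 ⊢
  by_cases c1 : w ∈ D
  · have a1 := n1.in_low c1 {s, x} (fun v hv _ _ => hv)
    rw [Finset.card_pair sx] at a1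
    by_cases c2 : w' ∈ D
    · have a2 := n2.in_low c2 ∅ fun v hv _ h3 =>
        absurd ((n1.adj_w v).2 hv).symm (h3 w c1)
      simp only [Finset.card_empty] at a2
      omega
    · have a2 := n2.out_bad c2 bad
      omega
  · have a1 := n1.out_bad c1 bad
    omega

namespace Atts

variable {K K' : LG} {L : List Gad}

theorem wf (h : Atts K L K') (hK : K.WF) : K'.WF := by
  induction h with
  | nil => exact hK
  | cons a _ ih => exact ih (a.wf hK)

theorem subV (h : Atts K L K') : K.V ⊆ K'.V := by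
  induction h with
  | nil => exact subset_rfl
  | cons a _ ih => exact a.subV.trans ih

theorem mem_S (h : Atts K L K') {v : ℕ} (hv : v ∈ K.V) : v ∈ K'.S ↔ v ∈ K.S := by
  induction h with
  | nil => rfl
  | cons a _ ih => exact (ih (a.subV hv)).trans (a.mem_S hv)

theorem low (h : Atts K L K') (hK : K.WF) (D : Finset ℕ) :
    K.ex D + (L.map (pay D)).sum ≤ K'.ex D := by
  induction h with
  | nil => simp
  | cons a _ ih =>
    have := ih (a.wf hK)
    have := a.low hK D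
    simp only [List.map_cons, List.sum_cons]
    omega

theorem low0 (h : Atts K L K') (hK : K.WF) (D : Finset ℕ) : K.ex D ≤ K'.ex D := by
  induction h with
  | @nil => exact le_rfl
  | @cons _ _ _ g _ a _ ih =>
    have := ih (a.wf hK)
    have := a.low hK D
    have := pay_nonneg D g
    omega

theorem upS (h : Atts K L K') (hK : K.WF) : K'.ex K'.S ≤ K.ex K.S := by
  induction h with
  | nil => exact le_rfl
  | cons a _ ih => exact (ih (a.wf hK)).trans (a.upS hK)

theorem downS (h : Atts K L K') (hK : K.WF) : K.ex K.S ≤ K'.ex K'.S := by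
  have := h.low0 hK K'.S
  rwa [ex_congr hK fun v hv => h.mem_S hv] at this

end Atts

end Pool.Agent.Work.MP_4489ea_co.HJ
end

-- merged part: Pool.Agent.Work.MP_4489ea_co.HJ.Pkg
section
/-!
Packages of named gadgets attached to a core graph.
-/

namespace Pool.Agent.Work.MP_4489ea_co.HJ

open SimpleGraph

theorem LG.add_comm' (H P : LG) : H.add P = P.add H :=
  LG.ext' (Finset.union_comm _ _) (fun u v => by simp [or_comm]) (Finset.union_comm _ _)

theorem LG.add_assoc' (H P Q : LG) : (H.add P).add Q = H.add (P.add Q) :=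
  LG.ext' (Finset.union_assoc _ _ _) (fun u v => by simp [or_assoc]) (Finset.union_assoc _ _ _)

theorem LG.add_right_comm' (H P Q : LG) : (H.add P).add Q = (H.add Q).add P := by
  rw [LG.add_assoc', P.add_comm', LG.add_assoc']

theorem LG.add_empty (H : LG) : H.add ⟨∅, ⊥, ∅⟩ = H := LG.ext' (by simp) (by simp) (by simp)

/-- A gadget with names for its new vertices. -/
structure NG where
  g : Gad
  w : ℕ
  a : ℕ
  l : ℕ
  m : ℕ

/-- The new vertices of a named gadget. -/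
def NG.names (p : NG) : Multiset ℕ :=
  match p.g with
  | .leaf _ => {p.w}
  | .link _ _ => {p.w}
  | .claw _ => ↑[p.w, p.a, p.l, p.m]

/-- The vertices, edges and marks a named gadget adds. -/
def NG.piece (p : NG) : LG :=
  match p.g with
  | .leaf s => ⟨{p.w}, edge p.w s, ∅⟩
  | .link s x => ⟨{p.w}, edge p.w s ⊔ edge p.w x, ∅⟩
  | .claw x => ⟨{p.w, p.a, p.l, p.m},
      edge p.w x ⊔ edge p.w p.a ⊔ edge p.l p.a ⊔ edge p.m p.a, {p.a}⟩

instance : LeftCommutative fun (p : NG) (Q : LG) => Q.add p.piece :=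
  ⟨fun _ _ _ => LG.add_right_comm' _ _ _⟩

/-- The core `C` with all gadgets of `Λ` attached. -/
def LG.pk (C : LG) (Λ : Multiset NG) : LG := Λ.foldr (fun p Q => Q.add p.piece) C

@[simp] theorem LG.pk_zero (C : LG) : C.pk 0 = C := rfl

theorem LG.pk_cons (C : LG) (p : NG) (Λ : Multiset NG) :
    C.pk (p ::ₘ Λ) = (C.pk Λ).add p.piece := Multiset.foldr_cons _ _ _ _

theorem LG.pk_add (C : LG) (Λ Λ' : Multiset NG) : C.pk (Λ + Λ') = (C.pk Λ').pk Λ :=
  Multiset.foldr_add _ _ _ _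

theorem LG.add_pk (C P : LG) (Λ : Multiset NG) : (C.add P).pk Λ = (C.pk Λ).add P := by
  induction Λ using Multiset.induction_on with
  | empty => rfl
  | cons p Λ ih => rw [LG.pk_cons, LG.pk_cons, ih, LG.add_right_comm']

theorem LG.join_pk (C : LG) (u v : ℕ) (Λ : Multiset NG) :
    (C.join u v).pk Λ = (C.pk Λ).join u v := LG.add_pk _ _ _

theorem NG.mem_piece_V (p : NG) (u : ℕ) : u ∈ p.piece.V ↔ u ∈ p.names := by
  obtain ⟨g, w, a, l, m⟩ := p
  cases g <;> simp [NG.piece, NG.names]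

theorem NG.piece_S (p : NG) {u : ℕ} (h : u ∈ p.piece.S) : u ∈ p.names := by
  obtain ⟨g, w, a, l, m⟩ := p
  cases g <;> simp_all [NG.piece, NG.names]

theorem LG.mem_pk_V (C : LG) (Λ : Multiset NG) (u : ℕ) :
    u ∈ (C.pk Λ).V ↔ u ∈ C.V ∨ u ∈ Λ.bind NG.names := by
  induction Λ using Multiset.induction_on with
  | empty => simp
  | cons p Λ ih =>
    rw [LG.pk_cons, LG.add_V, Finset.mem_union, ih, Multiset.cons_bind, Multiset.mem_add,
      NG.mem_piece_V]
    tauto

theorem LG.sub_pk (C : LG) (Λ : Multiset NG) {u : ℕ} (h : u ∈ C.V) : u ∈ (C.pk Λ).V :=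
  (C.mem_pk_V Λ u).2 (Or.inl h)

/-- The new names are distinct and outside the finite set `X`. -/
def Fresh (X : Finset ℕ) (Λ : Multiset NG) : Prop :=
  (Λ.bind NG.names).Nodup ∧ ∀ u ∈ Λ.bind NG.names, u ∉ X

theorem Fresh.mono {X Y : Finset ℕ} {Λ : Multiset NG} (h : Fresh X Λ) (hY : Y ⊆ X) : Fresh Y Λ :=
  ⟨h.1, fun u hu c => h.2 u hu (hY c)⟩

theorem fresh_add (C : LG) (Λ Λ' : Multiset NG) :
    Fresh C.V (Λ + Λ') ↔ Fresh (C.pk Λ').V Λ ∧ Fresh C.V Λ' := by
  unfold Fresh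
  rw [Multiset.add_bind, Multiset.nodup_add, Multiset.disjoint_left]
  simp only [Multiset.mem_add, LG.mem_pk_V]
  constructor
  · rintro ⟨⟨a, b, c⟩, d⟩
    exact ⟨⟨a, fun u hu h => h.elim (d u (Or.inl hu)) (c hu)⟩, b, fun u hu => d u (Or.inr hu)⟩
  · rintro ⟨⟨a, b⟩, c, d⟩
    exact ⟨⟨a, c, fun hu h => b _ hu (Or.inr h)⟩,
      fun u hu h => hu.elim (fun hu => b u hu (Or.inl h)) fun hu => d u hu h⟩

theorem fresh_single (X : Finset ℕ) (p : NG) :
    Fresh X {p} ↔ p.names.Nodup ∧ ∀ u ∈ p.names, u ∉ X := by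
  simp [Fresh]

theorem fresh_cons (C : LG) (p : NG) (Λ : Multiset NG) :
    Fresh C.V (p ::ₘ Λ) ↔ Fresh (C.pk Λ).V {p} ∧ Fresh C.V Λ := by
  rw [← Multiset.singleton_add, fresh_add]

theorem LG.mem_pk_S (C : LG) {Λ : Multiset NG} (h : Fresh C.V Λ) {u : ℕ} (hu : u ∈ C.V) :
    u ∈ (C.pk Λ).S ↔ u ∈ C.S := by
  induction Λ using Multiset.induction_on with
  | empty => simp
  | cons p Λ ih =>
    obtain ⟨h1, h2⟩ := (fresh_cons C p Λ).1 h
    rw [LG.pk_cons, LG.add_S, Finset.mem_union, ih h2]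
    exact ⟨fun c => c.resolve_right fun d =>
      ((fresh_single _ _).1 h1).2 u (p.piece_S d) (C.sub_pk Λ hu), Or.inl⟩

theorem Val.pk {C : LG} (hC : C.WF) {Λ : Multiset NG} (h : Fresh C.V Λ) {g : Gad}
    (hg : Val C g) : Val (C.pk Λ) g := by
  cases g with
  | leaf s => exact (C.mem_pk_S h (hC.1 hg)).2 hg
  | link s x =>
    exact ⟨(C.mem_pk_S h (hC.1 hg.1)).2 hg.1, C.sub_pk Λ hg.2.1,
      fun c => hg.2.2 ((C.mem_pk_S h hg.2.1).1 c)⟩
  | claw x => exact ⟨C.sub_pk Λ hg.1, fun c => hg.2 ((C.mem_pk_S h hg.1).1 c)⟩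

theorem att_piece {K : LG} {p : NG} (hv : Val K p.g) (h : Fresh K.V {p}) :
    Att K p.g (K.add p.piece) := by
  rw [fresh_single] at h
  obtain ⟨g, w, a, l, m⟩ := p
  cases g with
  | leaf s => exact Att.leaf hv (h.2 w (by simp [NG.names]))
  | link s x => exact Att.link hv.1 ((LG.mem_T _ _).2 hv.2) (h.2 w (by simp [NG.names]))
  | claw x =>
    exact Att.claw ((LG.mem_T _ _).2 hv) (Multiset.coe_nodup.1 h.1)
      fun u hu => h.2 u (Multiset.mem_coe.2 hu)

theorem wf_pk {C : LG} (hC : C.WF) {Λ : Multiset NG} (h : Fresh C.V Λ)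
    (hv : ∀ p ∈ Λ, Val C p.g) : (C.pk Λ).WF := by
  induction Λ using Multiset.induction_on with
  | empty => exact hC
  | cons p Λ ih =>
    obtain ⟨h1, h2⟩ := (fresh_cons C p Λ).1 h
    rw [LG.pk_cons]
    exact (att_piece ((hv p (Multiset.mem_cons_self _ _)).pk hC h2) h1).wf
      (ih h2 fun q hq => hv q (Multiset.mem_cons_of_mem hq))

theorem pk_single (C : LG) (p : NG) : C.pk {p} = C.add p.piece := rfl

theorem map_cons' {Λ : Multiset NG} {g : Gad} {L : Multiset Gad} (e : Λ.map NG.g = g ::ₘ L) :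
    ∃ p Λ', Λ = p ::ₘ Λ' ∧ p.g = g ∧ Λ'.map NG.g = L := by
  classical
  obtain ⟨p, hp, a, b⟩ := (Multiset.map_eq_cons NG.g Λ L g).2 e
  exact ⟨p, _, (Multiset.cons_erase hp).symm, a, b⟩

theorem atts_pk (L : List Gad) : ∀ {K : LG} (_ : K.WF) {Λ : Multiset NG}
    (_ : Λ.map NG.g = ↑L) (_ : Fresh K.V Λ) (_ : ∀ g ∈ L, Val K g), Atts K L (K.pk Λ) := by
  induction L with
  | nil =>
    intro K _ Λ e _ _
    rw [Multiset.coe_nil, Multiset.map_eq_zero] at e
    subst e
    exact Atts.nil _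
  | cons g L ih =>
    intro K hK Λ e h hv
    rw [← Multiset.cons_coe] at e
    obtain ⟨p, Λ', rfl, rfl, e'⟩ := map_cons' e
    rw [← Multiset.singleton_add, add_comm] at h ⊢
    obtain ⟨h1, h2⟩ := (fresh_add K _ _).1 h
    rw [LG.pk_add, pk_single]
    have a := att_piece (hv p.g List.mem_cons_self) h2
    exact Atts.cons a (ih (a.wf hK) e' h1 fun g hg =>
      (hv g (List.mem_cons_of_mem _ hg)).pk hK h2)

theorem exists_fresh_one (X : Finset ℕ) (g : Gad) : ∃ p : NG, p.g = g ∧ Fresh X {p} := by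
  obtain ⟨n, hn⟩ := X.bddAbove
  refine ⟨⟨g, n + 1, n + 2, n + 3, n + 4⟩, rfl, (fresh_single _ _).2 ?_⟩
  have : ∀ k, n + (k + 1) ∉ X := fun k c => by
    have := hn (Finset.mem_coe.2 c)
    omega
  cases g <;> simp [NG.names, this]

theorem exists_fresh (C : LG) (M : Multiset Gad) :
    ∃ Λ : Multiset NG, Λ.map NG.g = M ∧ Fresh C.V Λ := by
  induction M using Multiset.induction_on with
  | empty => exact ⟨0, rfl, by simp [Fresh]⟩
  | cons g M ih =>
    obtain ⟨Λ, e, h⟩ := ih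
    obtain ⟨p, e', h'⟩ := exists_fresh_one (C.pk Λ).V g
    exact ⟨p ::ₘ Λ, by rw [Multiset.map_cons, e, e'], (fresh_cons _ _ _).2 ⟨h', h⟩⟩

theorem map_split (M L : Multiset Gad) : ∀ Λ : Multiset NG, Λ.map NG.g = M + L →
    ∃ Λ1 Λ2, Λ = Λ1 + Λ2 ∧ Λ1.map NG.g = M ∧ Λ2.map NG.g = L := by
  induction M using Multiset.induction_on with
  | empty => intro Λ e; exact ⟨0, Λ, by simp, rfl, by simpa using e⟩
  | cons g M ih =>
    intro Λ e
    rw [Multiset.cons_add] at e
    obtain ⟨p, Λ', rfl, rfl, e'⟩ := map_cons' e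
    obtain ⟨Λ1, Λ2, a, b, c⟩ := ih _ e'
    exact ⟨p ::ₘ Λ1, Λ2, by rw [Multiset.cons_add, ← a], by rw [Multiset.map_cons, b], c⟩

theorem Gen.atts {K K' : LG} {L : List Gad} (h : Gen K) (ha : Atts K L K') : Gen K' := by
  induction ha with
  | nil => exact h
  | cons a _ ih => exact ih (h.o2 a)

/-- The core `C` with the gadgets `L` attached, under any names, is generated. -/
structure PP (C : LG) (L : Multiset Gad) : Prop where
  wf : C.WF
  val : ∀ g ∈ L, Val C g
  gen : ∀ Λ : Multiset NG, Λ.map NG.g = L → Fresh C.V Λ → Gen (C.pk Λ)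

theorem val_of_map {C : LG} {L : Multiset Gad} (hv : ∀ g ∈ L, Val C g) {Λ : Multiset NG}
    (e : Λ.map NG.g = L) : ∀ p ∈ Λ, Val C p.g :=
  fun _ hp => hv _ (e ▸ Multiset.mem_map_of_mem _ hp)

theorem PP.step {C : LG} (M : List Gad) {L : Multiset Gad} (hC : C.WF)
    (hM : ∀ g ∈ M, Val C g) (hL : ∀ g ∈ L, Val C g)
    (h : ∀ Λ : Multiset NG, Λ.map NG.g = L → Fresh C.V Λ →
      ∀ H, Atts (C.pk Λ) M H → Gen H) : PP C (↑M + L) := by
  refine ⟨hC, fun g hg => ?_, fun Λ e hf => ?_⟩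
  · rcases Multiset.mem_add.1 hg with hg | hg
    · exact hM g (Multiset.mem_coe.1 hg)
    · exact hL g hg
  · obtain ⟨Λ1, Λ2, rfl, e1, e2⟩ := map_split _ _ Λ e
    obtain ⟨f1, f2⟩ := (fresh_add C _ _).1 hf
    rw [LG.pk_add]
    exact h Λ2 e2 f2 _ (atts_pk M (wf_pk hC f2 (val_of_map hL e2)) e1 f1
      fun g hg => (hM g hg).pk hC f2)

theorem PP.more {C : LG} {L : Multiset Gad} (h : PP C L) (M : Multiset Gad)
    (hM : ∀ g ∈ M, Val C g) : PP C (M + L) := by
  induction M using Quotient.inductionOn with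
  | h M =>
    exact PP.step M h.wf (fun g hg => hM g (Multiset.mem_coe.2 hg)) h.val
      fun Λ e f H a => (h.gen Λ e f).atts a

theorem PP.cons {C : LG} {L : Multiset Gad} (h : PP C L) {g : Gad} (hg : Val C g) :
    PP C (g ::ₘ L) := by
  rw [← Multiset.singleton_add]
  exact h.more {g} (by simpa using hg)

theorem PP.mono {C : LG} {L L' : Multiset Gad} (h : PP C L) (hle : L ≤ L')
    (hv : ∀ g ∈ L', Val C g) : PP C L' := by
  obtain ⟨M, rfl⟩ := Multiset.le_iff_exists_add.1 hle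
  rw [add_comm]
  exact h.more M fun g hg => hv g (Multiset.mem_add.2 (Or.inr hg))

end Pool.Agent.Work.MP_4489ea_co.HJ
end

-- merged part: Pool.Agent.Work.MP_4489ea_co.HJ.Sound
section
/-!
Soundness of the eight operations.
-/

namespace Pool.Agent.Work.MP_4489ea_co.HJ

open SimpleGraph

/-- The marked set has weight twice its size, and no set has a smaller weight. -/
structure Good (K : LG) : Prop where
  wf : K.WF
  pds : K.ex K.S ≤ 0
  opt : ∀ D, 0 ≤ K.ex D

theorem wf_join {K : LG} (hK : K.WF) {u v : ℕ} (hu : u ∈ K.V) (hv : v ∈ K.V) :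
    (K.join u v).WF := by
  refine ⟨by simpa using hK.1, fun a b h => ?_⟩
  have := hK.2 a b
  simp only [LG.join_G, sup_adj, edge_adj, LG.join_V] at h ⊢
  rcases h with h | ⟨⟨rfl, -⟩ | ⟨rfl, -⟩, -⟩
  · exact this h
  · exact hu
  · exact hv

theorem join_S_ex {K : LG} {u v : ℕ} (h : u ∈ K.S ↔ v ∈ K.S) :
    (K.join u v).ex K.S = K.ex K.S := by
  unfold LG.ex LG.wt
  rw [LG.join_S, LG.join_V]
  congr 2
  refine Finset.sum_congr rfl fun y _ => cst_congr Iff.rfl fun hy z => ?_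
  simp only [LG.join_G, sup_adj, edge_adj]
  grind

theorem join_low (K : LG) (u v : ℕ) (D : Finset ℕ) :
    K.ex D ≤ (K.join u v).ex D + if (u ∈ D ↔ v ∈ D) then 0 else 1 := by
  have key : ∀ X : Finset ℕ, (∀ y, y ∉ D → (y = u ∧ v ∈ D ∨ y = v ∧ u ∈ D) → y ∈ X) →
      K.wt D ≤ (K.join u v).wt D + X.card := by
    intro X hX
    have := wt_low (K := K) (K' := K.join u v) D X (by simp) (by simp) (by
      intro y _ h0 h1 ⟨z, ⟨hz, ha⟩, _⟩
      have := h1 z hz
      simp only [LG.join_G, sup_adj, edge_adj] at ha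
      apply hX y h0
      grind)
    omega
  unfold LG.ex
  rw [LG.join_S]
  split_ifs with h
  · have := key ∅ (by grind)
    simp only [Finset.card_empty] at this
    omega
  · by_cases hu : u ∈ D
    · have := key {v} (by grind)
      simp only [Finset.card_singleton] at this
      omega
    · have := key {u} (by grind)
      simp only [Finset.card_singleton] at this
      omega

theorem join2_low (K : LG) (v : ℕ) {y y' : ℕ} (hy : y ≠ y') (D : Finset ℕ) :
    K.ex D ≤ ((K.join v y).join v y').ex D +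
      if v ∈ D then (if y ∈ D then 0 else 1) + (if y' ∈ D then 0 else 1)
      else if (y ∈ D ↔ y' ∈ D) then 0 else 1 := by
  have key : ∀ X : Finset ℕ, (v ∈ D → ∀ a, a ∉ D → (a = y ∨ a = y') → a ∈ X) →
      (v ∉ D → ¬ (y ∈ D ↔ y' ∈ D) → v ∈ X) →
      K.wt D ≤ ((K.join v y).join v y').wt D + X.card := by
    intro X hX hX'
    have := wt_low (K := K) (K' := (K.join v y).join v y') D X (by simp)
      (by simp only [LG.join_G]; exact le_sup_left.trans le_sup_left) (by
      intro a _ h0 h1 ⟨z, ⟨hz, ha⟩, hu⟩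
      have := h1 z hz
      have h2 := hu y
      have h3 := hu y'
      simp only [LG.join_G, sup_adj, edge_adj] at ha h2 h3
      grind)
    omega
  unfold LG.ex
  rw [LG.join_S, LG.join_S]
  by_cases h1 : v ∈ D <;> by_cases h2 : y ∈ D <;> by_cases h3 : y' ∈ D <;>
    simp only [h1, h2, h3, if_true, if_false, iff_self, iff_false, not_true_eq_false,
      false_iff]
  · have := key ∅ (by grind) (by grind)
    simp only [Finset.card_empty] at this
    omega
  · have := key {y'} (by grind) (by grind)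
    simp only [Finset.card_singleton] at this
    omega
  · have := key {y} (by grind) (by grind)
    simp only [Finset.card_singleton] at this
    omega
  · have := key {y, y'} (by grind) (by grind)
    rw [Finset.card_pair hy] at this
    omega
  · have := key ∅ (by grind) (by grind)
    simp only [Finset.card_empty] at this
    omega
  · have := key {v} (by grind) (by grind)
    simp only [Finset.card_singleton] at this
    omega
  · have := key {v} (by grind) (by grind)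
    simp only [Finset.card_singleton] at this
    omega
  · have := key ∅ (by grind) (by grind)
    simp only [Finset.card_empty] at this
    omega

theorem bind_low {H K K' : LG} {u v : ℕ} {L : List Gad} (hb : Bind H u v L)
    (hs : u ∈ H.S ↔ v ∈ H.S) (ha : Atts K L K') (hK : K.WF) (D : Finset ℕ) :
    K.ex D + (if (u ∈ D ↔ v ∈ D) then 0 else 1) ≤ K'.ex D := by
  rcases hb with rfl | ⟨z, rfl⟩
  · have := ha.low hK D
    by_cases h : u ∈ H.S
    · simp only [LG.guard, h, hs.1 h, if_true, List.map_cons, List.map_nil, List.sum_cons,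
        List.sum_nil, pay] at this
      by_cases h1 : u ∈ D <;> by_cases h2 : v ∈ D <;> simp [h1, h2] at this ⊢ <;> omega
    · have h' : v ∉ H.S := fun a => h (hs.2 a)
      simp only [LG.guard, h, h', if_false, List.map_cons, List.map_nil, List.sum_cons,
        List.sum_nil, pay] at this
      by_cases h1 : u ∈ D <;> by_cases h2 : v ∈ D <;> simp [h1, h2] at this ⊢ <;> omega
  · cases ha with
    | cons a1 ha =>
    cases ha with
    | cons a2 ha =>
    cases ha with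
    | cons a3 ha =>
    cases ha with
    | cons a4 ha =>
    cases ha
    have w2 := a2.wf (a1.wf hK)
    by_cases h : u ∈ H.S
    · simp only [LG.lk, h, hs.1 h, if_true] at a1 a2 a3 a4
      have b1 := dbl_low a1 a2 hK D
      have b2 := dbl_low a3 a4 w2 D
      by_cases h1 : u ∈ D <;> by_cases h2 : v ∈ D <;> by_cases h3 : z ∈ D <;>
        simp [h1, h2, h3] at b1 b2 ⊢ <;> omega
    · have h' : v ∉ H.S := fun a => h (hs.2 a)
      simp only [LG.lk, h, h', if_false] at a1 a2 a3 a4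
      have b1 := dbl_low a1 a2 hK D
      have b2 := dbl_low a3 a4 w2 D
      by_cases h1 : u ∈ D <;> by_cases h2 : v ∈ D <;> by_cases h3 : z ∈ D <;>
        simp [h1, h2, h3] at b1 b2 ⊢ <;> omega

theorem k2_S_ex {K : LG} (hK : K.WF) {a : ℕ} (ha : a ∉ K.V) :
    K.ex (K.S ∪ {a}) = K.ex K.S := ex_congr hK fun v hv => by
  have : v ≠ a := fun e => ha (e ▸ hv)
  simp [this]

theorem Good.k2 {K : LG} (h : Good K) {a l : ℕ} (ha : a ∉ K.V) (hl : l ∉ K.V) (hal : a ≠ l) :
    Good (K.addK2 a l) := by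
  refine ⟨wf_k2 h.wf a l, ?_, fun D => (h.opt D).trans (k2_low h.wf ha hl hal D)⟩
  have := k2_up_a h.wf ha hl hal (D := K.S ∪ {a}) (by simp)
    (by simp only [Finset.mem_union, Finset.mem_singleton, not_or]
        exact ⟨fun c => hl (h.wf.1 c), hal.symm⟩)
  have := k2_S_ex h.wf ha
  have := h.pds
  rw [LG.addK2_S]
  omega

theorem Good.att {K K' : LG} {g : Gad} (h : Good K) (ha : Att K g K') : Good K' := by
  refine ⟨ha.wf h.wf, (ha.upS h.wf).trans h.pds, fun D => ?_⟩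
  have := ha.low h.wf D
  have := pay_nonneg D g
  have := h.opt D
  omega

theorem Good.o3 {H H' : LG} {u v : ℕ} {L : List Gad} (h : Good H)
    (hs : u ∈ H.S ∧ v ∈ H.S ∨ u ∈ H.T ∧ v ∈ H.T) (hb : Bind H u v L)
    (ha : Atts (H.join u v) L H') : Good H' := by
  simp only [LG.mem_T] at hs
  have h1 := @h.wf.1 u
  have h2 := @h.wf.1 v
  have w := wf_join h.wf (u := u) (v := v) (by tauto) (by tauto)
  have hs' : u ∈ H.S ↔ v ∈ H.S := by tauto
  refine ⟨ha.wf w, ?_, fun D => ?_⟩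
  · have := ha.upS w
    rw [LG.join_S, join_S_ex hs'] at this
    exact this.trans h.pds
  · have := bind_low hb hs' ha w D
    have := join_low H u v D
    have := h.opt D
    omega

theorem join2_S {H : LG} {v y y' : ℕ} (h1 : v ∈ H.S ↔ y ∈ H.S) (h2 : v ∈ H.S ↔ y' ∈ H.S) :
    ((H.join v y).join v y').ex ((H.join v y).join v y').S = H.ex H.S := by
  rw [LG.join_S, join_S_ex (by simpa using h2), LG.join_S, join_S_ex h1]

theorem Good.o4S {H H' : LG} {v y y' : ℕ} (h : Good H) (hv : v ∈ H.S) (hy : y ∈ H.S)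
    (hy' : y' ∈ H.S) (hne : y ≠ y')
    (ha : Atts ((H.join v y).join v y') [.leaf y, .leaf y'] H') : Good H' := by
  have w := wf_join (wf_join h.wf (h.wf.1 hv) (h.wf.1 hy)) (u := v) (v := y')
    (by simpa using h.wf.1 hv) (by simpa using h.wf.1 hy')
  refine ⟨ha.wf w, ?_, fun D => ?_⟩
  · have := ha.upS w
    rw [join2_S (by tauto) (by tauto)] at this
    exact this.trans h.pds
  · have a1 := ha.low w D
    have a2 := join2_low H v hne D
    have := h.opt D
    simp only [List.map_cons, List.map_nil, List.sum_cons, List.sum_nil, pay] at a1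
    by_cases h1 : v ∈ D <;> by_cases h2 : y ∈ D <;> by_cases h3 : y' ∈ D <;>
      simp [h1, h2, h3] at a1 a2 <;> omega

theorem Good.o4T {H H' : LG} {v y y' : ℕ} {L : List Gad} (h : Good H) (hv : v ∈ H.T)
    (hy : y ∈ H.T) (hy' : y' ∈ H.T) (hne : y ≠ y') (hb : Bind H y y' L)
    (ha : Atts ((H.join v y).join v y') (.claw v :: .claw v :: L) H') : Good H' := by
  simp only [LG.mem_T] at hv hy hy'
  have w := wf_join (wf_join h.wf hv.1 hy.1) (u := v) (v := y')
    (by simpa using hv.1) (by simpa using hy'.1)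
  refine ⟨ha.wf w, ?_, fun D => ?_⟩
  · have := ha.upS w
    rw [join2_S (by tauto) (by tauto)] at this
    exact this.trans h.pds
  · cases ha with
    | cons b1 ha =>
    cases ha with
    | cons b2 ha =>
    have a0 := b1.low w D
    have a1 := b2.low (b1.wf w) D
    have a2 := join2_low H v hne D
    have a3 := bind_low hb (by tauto) ha (b2.wf (b1.wf w)) D
    have := h.opt D
    simp only [pay] at a0 a1
    by_cases h1 : v ∈ D <;> by_cases h2 : y ∈ D <;> by_cases h3 : y' ∈ D <;>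
      simp [h1, h2, h3] at a0 a1 a2 a3 <;> omega

theorem Good.o6 {H P H' : LG} {s x p : ℕ} (w : H.WF) (h1 : Att H (.leaf s) P) (h : Good P)
    (ha : Atts H [.link s x, .link s x, .link p x, .leaf p] H') : Good H' := by
  refine ⟨ha.wf w, ?_, fun D => ?_⟩
  · have := ha.upS w
    have := (Atts.cons h1 (Atts.nil _)).downS w
    have := h.pds
    omega
  · have key : 0 ≤ H.ex D + if s ∈ D then 0 else 1 := by
      cases h1 with
      | @leaf _ t hs ht =>
      have n1 := nv_one w.2 ht (w.1 hs) ∅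
      have a1 := n1.out (D := D.erase t) (by simp)
      have a2 := h.opt (D.erase t)
      have a3 : H.wt (D.erase t) = H.wt D := wt_congr w.2 fun v hv => by
        have : v ≠ t := fun e => ht (e ▸ hv)
        simp [this]
      unfold LG.ex at a2 ⊢
      rw [LG.add_S, Finset.union_empty] at a2
      split_ifs with c
      · have : s ≠ t := fun e => ht (e ▸ w.1 hs)
        have := n1.out_good (D := D.erase t) (by simp) ⟨s, by simp [c, this], by simp⟩
        omega
      · have := cst_le_one (H.add ⟨{t}, edge t s, ∅⟩).G (D := D.erase t) (v := t) (by simp)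
        omega
    cases ha with
    | cons b1 ha =>
    cases ha with
    | cons b2 ha =>
    have a1 := dbl_low b1 b2 w D
    have a2 := ha.low (b2.wf (b1.wf w)) D
    have a3 := b1.low w D
    have a4 := b2.low (b1.wf w) D
    simp only [List.map_cons, List.map_nil, List.sum_cons, List.sum_nil, pay] at a2 a3 a4
    by_cases c1 : s ∈ D <;> by_cases c2 : x ∈ D <;> by_cases c3 : p ∈ D <;>
      simp [c1, c2, c3] at key a1 a2 a3 a4 <;> omega

theorem atts_plain_up {K P : LG} {L : List Gad} (ha : Atts K L P) (hK : K.WF)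
    (hL : ∀ g ∈ L, ∀ x, g ≠ .claw x) :
    P.S = K.S ∧ (∀ g ∈ L, ∀ s x, g = .link s x → s ∈ K.S ∧ x ∉ K.S) ∧
      ∀ D ⊆ K.V, (∀ g ∈ L, free D g) → P.ex D ≤ K.ex D := by
  induction ha with
  | nil => simp
  | @cons K K1 P g L a _ ih =>
    have hS : K1.S = K.S := by
      cases a with
      | leaf => simp
      | link => simp
      | claw => exact absurd rfl (hL _ List.mem_cons_self _)
    obtain ⟨i1, i2, i3⟩ := ih (a.wf hK) fun g hg => hL g (List.mem_cons_of_mem _ hg)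
    refine ⟨i1.trans hS, fun g' hg s x e => ?_, fun D hD hf => ?_⟩
    · rcases List.mem_cons.1 hg with rfl | hg
      · have := a.val
        rw [e] at this
        exact ⟨this.1, this.2.2⟩
      · rw [← hS]; exact i2 g' hg s x e
    · have b1 := a.up hK hD (hf g List.mem_cons_self)
      rw [hS, Finset.sdiff_self, Finset.union_empty] at b1
      exact (i3 D (hD.trans a.subV) fun g hg => hf g (List.mem_cons_of_mem _ hg)).trans b1

theorem Good.o5 {H P H' : LG} {a s t t' k : ℕ} {g : Gad} (w : H.WF) (ha : a ∉ H.V)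
    (hs : s ∈ H.S) (ht : t ∈ H.T) (ht' : t' ∈ H.T)
    (hP : Atts (H.add ⟨{a}, edge a s, {a}⟩) (List.replicate k (.leaf a)) P) (h : Good P)
    (hg : g = .leaf s ∨ g = .link s a)
    (hH : Att (H.add ⟨{a}, edge a s ⊔ edge a t ⊔ edge a t', ∅⟩) g H') : Good H' := by
  simp only [LG.mem_T] at ht ht'
  have n1 := nv_one w.2 ha (w.1 hs) {a}
  have n2 := nv_three w.2 ha (w.1 hs) ht.1 ht'.1
  have w1 : (H.add ⟨{a}, edge a s, {a}⟩).WF :=
    ⟨Finset.union_subset_union w.1 subset_rfl, n1.wf'⟩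
  have w2 := wf_nv w n2
  have cS := card_S_add w ha
  have aS : a ∉ H.S := fun c => ha (w.1 c)
  refine ⟨hH.wf w2, ?_, fun D => ?_⟩
  · have b1 := hH.upS w2
    have b2 := hP.downS w1
    have b3 := h.pds
    have b4 := n1.in_low (D := H.S ∪ {a}) (by simp) ∅ (by simp [hs])
    have b5 := k2_S_ex w ha
    have b6 := n2.out_good aS ⟨s, by simp [hs], by
      simp only [Finset.mem_insert, Finset.mem_singleton]
      rintro y ⟨c, rfl | rfl | rfl⟩
      · rfl
      · exact absurd c ht.2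
      · exact absurd c ht'.2⟩
    unfold LG.ex at *
    simp only [LG.add_S, Finset.union_empty, Finset.card_empty] at *
    omega
  · -- the set used in the graph with the star
    set D1 : Finset ℕ := insert a (D ∩ H.V) with hD1
    have aD1 : a ∈ D1 := by simp [hD1]
    have e1 : ∀ v ∈ H.V, v ∈ D1 ↔ v ∈ D := fun v hv => by
      have : v ≠ a := fun e => ha (e ▸ hv)
      simp [hD1, this, hv]
    have b1 := (atts_plain_up hP w1 (by simp)).2.2 D1
      (by intro v hv
          simp only [hD1, Finset.mem_insert, Finset.mem_inter] at hv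
          simp only [LG.add_V, Finset.mem_union, Finset.mem_singleton]
          tauto)
      (by intro g hg
          rw [List.eq_of_mem_replicate hg]
          exact aD1)
    have b2 := h.opt D1
    have b3 : H.wt D1 = H.wt D := wt_congr w.2 e1
    have l1 := hH.low w2 D
    have p1 := pay_nonneg D g
    by_cases c1 : a ∈ D
    · have b4 := wt_low (K := H.add ⟨{a}, edge a s, {a}⟩)
        (K' := H.add ⟨{a}, edge a s ⊔ edge a t ⊔ edge a t', ∅⟩) D {t, t'} subset_rfl
        (sup_le_sup_left (le_sup_left.trans le_sup_left) _) (by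
          intro v _ h0 h1 ⟨z, ⟨hz, hz'⟩, _⟩
          have := h1 z hz
          simp only [LG.add_G, sup_adj, edge_adj] at this hz'
          simp only [Finset.mem_insert, Finset.mem_singleton]
          grind)
      have b5 : (H.add ⟨{a}, edge a s, {a}⟩).wt D1 = (H.add ⟨{a}, edge a s, {a}⟩).wt D :=
        wt_congr w1.2 fun v hv => by
          rcases Finset.mem_union.1 hv with hv | hv
          · exact e1 v hv
          · rw [Finset.mem_singleton.1 hv]; simp only [aD1, c1]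
      have b6 : ({t, t'} : Finset ℕ).card ≤ 2 := Finset.card_le_two
      unfold LG.ex at *
      simp only [LG.add_S, Finset.union_empty] at *
      omega
    · have b4 := n2.out_le c1
      by_cases c2 : s ∈ D
      · have b5 := n1.in_up aD1 ∅ (by simp [(e1 s (w.1 hs)).2 c2])
        unfold LG.ex at *
        simp only [LG.add_S, Finset.union_empty, Finset.card_empty] at *
        omega
      · have b5 := n1.in_up aD1 {s} (by simp)
        rcases hg with rfl | rfl
        · simp only [pay, c2, if_false] at l1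
          unfold LG.ex at *
          simp only [LG.add_S, Finset.union_empty, Finset.card_singleton] at *
          omega
        · cases hH with
          | @link _ _ u d1 d2 d3 =>
          have n3 := nv_two w2.2 d3 (w2.1 d1) ((LG.mem_T _ _).1 d2).1
          by_cases c3 : u ∈ D
          · have b6 := wt_low (K := H) D {s} (n2.subV.trans n3.subV) (n2.le.trans n3.le) (by
              intro v hv h0 h1 ⟨z, ⟨hz, hz'⟩, _⟩
              have := h1 z hz
              have := n2.fresh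
              have := n3.fresh
              have := n2.subV hv
              rw [n3.adj, n2.adj] at hz'
              simp only [Finset.mem_insert, Finset.mem_singleton] at hz' ⊢
              grind)
            have b7 := Finset.single_le_sum (f := cst ((H.add
                ⟨{a}, edge a s ⊔ edge a t ⊔ edge a t', ∅⟩).add
                ⟨{u}, edge u s ⊔ edge u a, ∅⟩).G D) (fun _ _ => Nat.zero_le _)
              (s := ((H.add ⟨{a}, edge a s ⊔ edge a t ⊔ edge a t', ∅⟩).add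
                ⟨{u}, edge u s ⊔ edge u a, ∅⟩).V \ H.V) (a := u)
              (Finset.mem_sdiff.2 ⟨by simp, fun c => d3 (n2.subV c)⟩)
            rw [cst_mem _ c3] at b7
            unfold LG.ex at *
            simp only [LG.add_S, Finset.union_empty, Finset.card_singleton] at *
            omega
          · have b6 := n3.out_bad c3 (by
              rintro ⟨y, ⟨y1, y2⟩, -⟩
              simp only [Finset.mem_insert, Finset.mem_singleton] at y2
              rcases y2 with rfl | rfl <;> contradiction)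
            unfold LG.ex at *
            simp only [LG.add_S, Finset.union_empty, Finset.card_singleton] at *
            omega

theorem Good.o7 {H P : LG} {a l v : ℕ} {L : List Gad} (w : H.WF) (ha : a ∉ H.V)
    (hl : l ∉ H.V) (hal : a ≠ l) (hL : ∀ g ∈ L, g = .link a l ∨ g = .link a v ∨ g = .link v l)
    (hP : Atts (H.addK2 a l) L P) (h : Good P) : Good H := by
  have w1 := wf_k2 w a l
  refine ⟨w, ?_, fun D => ?_⟩
  · have b1 := hP.downS w1
    have b2 := k2_low w ha hl hal (H.S ∪ {a})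
    have b3 := k2_S_ex w ha
    have b4 := h.pds
    rw [LG.addK2_S] at b1
    omega
  · have e0 : H.ex (D ∩ H.V) = H.ex D := ex_congr w fun v hv => by simp [hv]
    rw [← e0]
    generalize hD : D ∩ H.V = E
    have hE : E ⊆ H.V := hD ▸ Finset.inter_subset_right
    obtain ⟨-, i2, i3⟩ := atts_plain_up hP w1 (by
      intro g hg x e
      rcases hL g hg with c | c | c <;> rw [c] at e <;> cases e)
    have aE : a ∉ E := fun c => ha (hE c)
    have lE : l ∉ E := fun c => hl (hE c)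
    have j5 := @w.1 v
    have j6 := @hE v
    by_cases c : v ∈ H.V ∧ ¬ (v ∈ E ↔ v ∈ H.S)
    · have b1 := i3 (insert l E)
        (Finset.insert_subset (by simp) (hE.trans Finset.subset_union_left)) (by
          intro g hg
          have j1 := i2 g hg
          rcases hL g hg with rfl | rfl | rfl
          all_goals
            have j2 := j1 _ _ rfl
            simp only [LG.addK2_S, Finset.mem_union, Finset.mem_insert,
              Finset.mem_singleton, free] at j2 ⊢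
            grind)
      have b2 := k2_up_l w ha hl hal (D := insert l E) (by simp [hal, aE]) (by simp)
      have b3 : H.ex (insert l E) = H.ex E := ex_congr w fun v hv => by
        have : v ≠ l := fun e => hl (e ▸ hv)
        simp [this]
      have b4 := h.opt (insert l E)
      omega
    · have b1 := i3 (insert a E)
        (Finset.insert_subset (by simp) (hE.trans Finset.subset_union_left)) (by
          intro g hg
          have j1 := i2 g hg
          rcases hL g hg with rfl | rfl | rfl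
          all_goals
            have j2 := j1 _ _ rfl
            simp only [LG.addK2_S, Finset.mem_union, Finset.mem_insert,
              Finset.mem_singleton, free] at j2 ⊢
            grind)
      have b2 := k2_up_a w ha hl hal (D := insert a E) (by simp) (by simp [hal.symm, lE])
      have b3 : H.ex (insert a E) = H.ex E := ex_congr w fun v hv => by
        have : v ≠ a := fun e => ha (e ▸ hv)
        simp [this]
      have b4 := h.opt (insert a E)
      omega

theorem Good.o8 {H P Q R : LG} {s x : ℕ} (w : H.WF) (hP : Att H (.leaf s) P)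
    (hQ : Att H (.claw x) Q) (hR : Att H (.link s x) R) (gP : Good P) (gQ : Good Q)
    (gR : Good R) : Good H := by
  refine ⟨w, ((Atts.cons hP (Atts.nil _)).downS w).trans gP.pds, fun D => ?_⟩
  have e0 : H.ex (D ∩ H.V) = H.ex D := ex_congr w fun v hv => by simp [hv]
  rw [← e0]
  generalize hD : D ∩ H.V = E
  have hE : E ⊆ H.V := hD ▸ Finset.inter_subset_right
  by_cases c1 : s ∈ E
  · exact (gP.opt _).trans (hP.up w hE c1)
  · by_cases c2 : x ∈ E
    · exact (gR.opt _).trans (hR.up w hE (by simp [free, c1, c2]))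
    · exact (gQ.opt _).trans (hQ.up w hE c2)

theorem Gen.good {K : LG} (h : Gen K) : Good K := by
  induction h with
  | empty => exact ⟨⟨by simp, by simp⟩, by simp [LG.ex, LG.wt], by simp [LG.ex, LG.wt]⟩
  | o1 _ a b c ih => exact ih.k2 a b c
  | o2 _ a ih => exact ih.att a
  | o3 _ a b c ih => exact ih.o3 a b c
  | o4S _ a b c d e ih => exact ih.o4S a b c d e
  | o4T _ a b c d e f ih => exact ih.o4T a b c d e f
  | o5 a b c d e f _ g h ih => exact Good.o5 a b c d e f ih g h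
  | o6 a b _ c ih => exact Good.o6 a b ih c
  | o7 a b c d e f _ ih => exact Good.o7 a b c d e f ih
  | o8 a b c d _ _ _ i1 i2 i3 => exact Good.o8 a b c d i1 i2 i3

end Pool.Agent.Work.MP_4489ea_co.HJ
end

-- merged part: Pool.Agent.Work.MP_4489ea_co.HJ.Rules
section
/-!
The operations in the presence of gadgets already attached.
-/

namespace Pool.Agent.Work.MP_4489ea_co.HJ

open SimpleGraph

theorem Val.ext {C C' : LG} (hC : C.WF) (hV : C.V ⊆ C'.V) (hS : ∀ v ∈ C.V, v ∈ C'.S ↔ v ∈ C.S)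
    {g : Gad} (h : Val C g) : Val C' g := by
  cases g with
  | leaf s => exact (hS s (hC.1 h)).2 h
  | link s x => exact ⟨(hS s (hC.1 h.1)).2 h.1, hV h.2.1, fun c => h.2.2 ((hS x h.2.1).1 c)⟩
  | claw x => exact ⟨hV h.1, fun c => h.2 ((hS x h.1).1 c)⟩

theorem Val.join {C : LG} {u v : ℕ} {g : Gad} (h : Val C g) : Val (C.join u v) g := by
  cases g <;> simpa [Val] using h

theorem PP.k2 {C : LG} {L : Multiset Gad} (h : PP C L) {a : ℕ} (ha : a ∉ C.V) :
    PP (C.add ⟨{a}, ⊥, {a}⟩) (.leaf a ::ₘ L) := by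
  have hS : ∀ v ∈ C.V, v ∈ (C.add ⟨{a}, ⊥, {a}⟩).S ↔ v ∈ C.S := fun v hv => by
    have : v ≠ a := fun e => ha (e ▸ hv)
    simp [this]
  refine ⟨⟨Finset.union_subset_union h.wf.1 subset_rfl, (nv_iso h.wf ha _).wf'⟩,
    fun g hg => ?_, fun Λ e f => ?_⟩
  · rcases Multiset.mem_cons.1 hg with rfl | hg
    · simp [Val]
    · exact (h.val g hg).ext h.wf Finset.subset_union_left hS
  · obtain ⟨p, Λ', rfl, e1, e2⟩ := map_cons' e
    obtain ⟨f1, f2⟩ := (fresh_cons _ _ _).1 f
    obtain ⟨g, w, a', l, m⟩ := p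
    simp only at e1
    subst e1
    have f3 := ((fresh_single _ _).1 f1).2 w (by simp [NG.names])
    rw [LG.add_pk] at f3
    rw [LG.pk_cons, LG.add_pk]
    have := k2_eq (C.pk Λ') a w
    simp only [NG.piece]
    rw [← this]
    simp only [LG.add_V, Finset.mem_union, Finset.mem_singleton, not_or] at f3
    refine Gen.o1 (h.gen Λ' e2 (f2.mono Finset.subset_union_left)) ?_ f3.1 (Ne.symm f3.2)
    rw [LG.mem_pk_V]
    rintro (c | c)
    · exact ha c
    · exact f2.2 a c (by simp)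

theorem PP.absorb {C : LG} {L : Multiset Gad} {p : NG} (h : PP C (p.g ::ₘ L))
    (hf : Fresh C.V {p}) : PP (C.add p.piece) L := by
  have a := att_piece (h.val _ (Multiset.mem_cons_self _ _)) hf
  refine ⟨a.wf h.wf, fun g hg => (h.val g (Multiset.mem_cons_of_mem hg)).pk h.wf hf,
    fun Λ e f => ?_⟩
  rw [← pk_single, ← LG.pk_add]
  refine h.gen _ ?_ ((fresh_add _ _ _).2 ⟨f, hf⟩)
  rw [Multiset.map_add, e, Multiset.map_singleton, add_comm, Multiset.singleton_add]

theorem PP.newLeaf {C : LG} {L : Multiset Gad} {s q : ℕ} (h : PP C (.leaf s ::ₘ L))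
    (hq : q ∉ C.V) : PP (C.add ⟨{q}, edge q s, ∅⟩) L :=
  PP.absorb (p := ⟨.leaf s, q, 0, 0, 0⟩) h ((fresh_single _ _).2 (by simp [NG.names, hq]))

theorem PP.newLink {C : LG} {L : Multiset Gad} {s x q : ℕ} (h : PP C (.link s x ::ₘ L))
    (hq : q ∉ C.V) : PP (C.add ⟨{q}, edge q s ⊔ edge q x, ∅⟩) L :=
  PP.absorb (p := ⟨.link s x, q, 0, 0, 0⟩) h ((fresh_single _ _).2 (by simp [NG.names, hq]))

theorem guard_pk {C : LG} {Λ : Multiset NG} (f : Fresh C.V Λ) {u : ℕ} (hu : u ∈ C.V) :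
    (C.pk Λ).guard u = C.guard u := by
  simp only [LG.guard, C.mem_pk_S f hu]

theorem Bind.pk {C : LG} {Λ : Multiset NG} (f : Fresh C.V Λ) {u v : ℕ} (hu : u ∈ C.V)
    (hv : v ∈ C.V) {M : List Gad} (h : Bind C u v M) : Bind (C.pk Λ) u v M := by
  simpa only [Bind, LG.guard, LG.lk, C.mem_pk_S f hu, C.mem_pk_S f hv] using h

theorem mem_pk_T {C : LG} {Λ : Multiset NG} (f : Fresh C.V Λ) {u : ℕ} (hu : u ∈ C.T) :
    u ∈ (C.pk Λ).T := by
  rw [LG.mem_T] at hu ⊢
  exact ⟨C.sub_pk Λ hu.1, fun c => hu.2 ((C.mem_pk_S f hu.1).1 c)⟩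

theorem PP.o3 {C : LG} {L : Multiset Gad} (h : PP C L) {u v : ℕ} {M : List Gad}
    (hs : u ∈ C.S ∧ v ∈ C.S ∨ u ∈ C.T ∧ v ∈ C.T) (hb : Bind C u v M) (hM : ∀ g ∈ M, Val C g) :
    PP (C.join u v) (↑M + L) := by
  have hu : u ∈ C.V := hs.elim (fun c => h.wf.1 c.1) fun c => ((LG.mem_T _ _).1 c.1).1
  have hv : v ∈ C.V := hs.elim (fun c => h.wf.1 c.2) fun c => ((LG.mem_T _ _).1 c.2).1
  refine PP.step M (wf_join h.wf hu hv) (fun g hg => (hM g hg).join)
    (fun g hg => (h.val g hg).join) fun Λ e f H a => ?_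
  rw [LG.join_V] at f
  rw [LG.join_pk] at a
  refine Gen.o3 (h.gen Λ e f) ?_ (hb.pk f hu hv) a
  exact hs.imp (fun c => ⟨(C.mem_pk_S f hu).2 c.1, (C.mem_pk_S f hv).2 c.2⟩)
    fun c => ⟨mem_pk_T f c.1, mem_pk_T f c.2⟩

theorem PP.o4S {C : LG} {L : Multiset Gad} (h : PP C L) {v y y' : ℕ} (hv : v ∈ C.S)
    (hy : y ∈ C.S) (hy' : y' ∈ C.S) (hne : y ≠ y') :
    PP ((C.join v y).join v y') (↑[Gad.leaf y, Gad.leaf y'] + L) := by
  refine PP.step _ (wf_join (wf_join h.wf (h.wf.1 hv) (h.wf.1 hy)) (by simpa using h.wf.1 hv)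
    (by simpa using h.wf.1 hy')) (by simp [Val, hy, hy'])
    (fun g hg => (h.val g hg).join.join) fun Λ e f H a => ?_
  rw [LG.join_V, LG.join_V] at f
  rw [LG.join_pk, LG.join_pk] at a
  exact Gen.o4S (h.gen Λ e f) ((C.mem_pk_S f (h.wf.1 hv)).2 hv) ((C.mem_pk_S f (h.wf.1 hy)).2 hy)
    ((C.mem_pk_S f (h.wf.1 hy')).2 hy') hne a

theorem PP.o4T {C : LG} {L : Multiset Gad} (h : PP C L) {v y y' s : ℕ} (hv : v ∈ C.T)
    (hy : y ∈ C.T) (hy' : y' ∈ C.T) (hne : y ≠ y') (hs : s ∈ C.S) :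
    PP ((C.join v y).join v y')
      (↑[Gad.claw v, .claw v, .link s y, .link s y, .link s y', .link s y'] + L) := by
  have hv1 := (LG.mem_T _ _).1 hv
  have hy1 := (LG.mem_T _ _).1 hy
  have hy1' := (LG.mem_T _ _).1 hy'
  refine PP.step _ (wf_join (wf_join h.wf hv1.1 hy1.1) (by simpa using hv1.1)
    (by simpa using hy1'.1)) (by simp [Val, hv1, hy1, hy1', hs])
    (fun g hg => (h.val g hg).join.join) fun Λ e f H a => ?_
  rw [LG.join_V, LG.join_V] at f
  rw [LG.join_pk, LG.join_pk] at a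
  refine Gen.o4T (h.gen Λ e f) (mem_pk_T f hv) (mem_pk_T f hy) (mem_pk_T f hy') hne
    (Bind.pk f hy1.1 hy1'.1 (Or.inr ⟨s, ?_⟩)) a
  simp [LG.lk, hy1.2, hy1'.2]

theorem PP.o6 {C : LG} {L : Multiset Gad} {s x p : ℕ} (h : PP C (.leaf s ::ₘ L)) (hx : x ∈ C.T)
    (hp : p ∈ C.S) : PP C (↑[Gad.link s x, .link s x, .link p x, .leaf p] + L) := by
  have hs : Val C (.leaf s) := h.val _ (Multiset.mem_cons_self _ _)
  have hs' : s ∈ C.S := hs
  have hx1 := (LG.mem_T _ _).1 hx
  have hL : ∀ g ∈ L, Val C g := fun g hg => h.val g (Multiset.mem_cons_of_mem hg)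
  refine PP.step _ h.wf (by simp [Val, hs', hx1, hp]) hL fun Λ e f H a => ?_
  obtain ⟨t, e1, f1⟩ := exists_fresh_one (C.pk Λ).V (.leaf s)
  have a1 := att_piece (p := t) (e1 ▸ hs.pk h.wf f) f1
  rw [e1] at a1
  refine Gen.o6 (wf_pk h.wf f (val_of_map hL e)) a1 ?_ a
  rw [← LG.pk_cons]
  exact h.gen _ (by rw [Multiset.map_cons, e, e1]) ((fresh_cons _ _ _).2 ⟨f1, f⟩)

theorem PP.o5 {C : LG} (hC : C.WF) {L : Multiset Gad} {a s s1 s2 k : ℕ} {g : Gad}
    (ha : a ∉ C.V) (hs : s ∈ C.S) (h1 : s1 ∈ C.S) (h2 : s2 ∈ C.S) (hL : ∀ g ∈ L, Val C g)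
    (hg : g = .leaf s ∨ g = .link s a)
    (h : PP (C.add ⟨{a}, edge a s, {a}⟩)
      (Multiset.replicate k (.leaf a) + (.leaf s1 ::ₘ .leaf s2 ::ₘ L))) :
    PP (C.add ⟨{a}, edge a s, ∅⟩) (g ::ₘ .link s1 a ::ₘ .link s2 a ::ₘ L) := by
  have aS : a ∉ C.S := fun c => ha (hC.1 c)
  have w1 := wf_nv hC (nv_one hC.2 ha (hC.1 hs) ∅)
  have vg : Val (C.add ⟨{a}, edge a s, ∅⟩) g := by
    rcases hg with rfl | rfl <;> simp [Val, hs, aS]
  refine ⟨w1, fun g' hg' => ?_, fun Λ e f => ?_⟩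
  · simp only [Multiset.mem_cons] at hg'
    rcases hg' with rfl | rfl | rfl | hg'
    · exact vg
    · simp [Val, h1, aS]
    · simp [Val, h2, aS]
    · exact (hL g' hg').ext hC Finset.subset_union_left (by simp)
  · obtain ⟨p, Λ1, rfl, e1, ea⟩ := map_cons' e
    obtain ⟨q1, Λ2, rfl, e2, eb⟩ := map_cons' ea
    obtain ⟨q2, Λ3, rfl, e3, ec⟩ := map_cons' eb
    clear e ea eb
    obtain ⟨f1, f⟩ := (fresh_cons _ _ _).1 f
    obtain ⟨g1, t1, a1, l1, m1⟩ := q1
    obtain ⟨g2, t2, a2, l2, m2⟩ := q2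
    simp only at e2 e3
    subst e2 e3
    -- the same vertices as leaves
    set Λ4 : Multiset NG := ⟨.leaf s1, t1, a1, l1, m1⟩ ::ₘ ⟨.leaf s2, t2, a2, l2, m2⟩ ::ₘ Λ3
      with hΛ4
    have f4 : Fresh (C.add ⟨{a}, edge a s, ∅⟩).V Λ4 := by
      simpa only [Fresh, hΛ4, Multiset.cons_bind, NG.names] using f
    have f5 : Fresh C.V Λ4 := f4.mono Finset.subset_union_left
    have e4 : Λ4.map NG.g = .leaf s1 ::ₘ .leaf s2 ::ₘ L := by
      rw [hΛ4, Multiset.map_cons, Multiset.map_cons, ec]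
    have v4 : ∀ g ∈ (Gad.leaf s1 ::ₘ .leaf s2 ::ₘ L), Val C g := by
      intro g hg
      simp only [Multiset.mem_cons] at hg
      rcases hg with rfl | rfl | hg
      · exact h1
      · exact h2
      · exact hL g hg
    have w4 := wf_pk hC f5 (val_of_map v4 e4)
    have a4 : a ∉ (C.pk Λ4).V := by
      rw [LG.mem_pk_V]
      rintro (c | c)
      · exact ha c
      · exact f4.2 a c (by simp)
    have s4 := (C.mem_pk_S f5 (hC.1 hs)).2 hs
    have hT : t1 ∈ (C.pk Λ4).T ∧ t2 ∈ (C.pk Λ4).T := by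
      obtain ⟨g1, g2⟩ := (fresh_cons _ _ _).1 f5
      obtain ⟨g2, g3⟩ := (fresh_cons _ _ _).1 g2
      have w3 := wf_pk hC g3 (val_of_map hL ec)
      have n1 := ((fresh_single _ _).1 g1).2 t1 (by simp [NG.names])
      have n2 := ((fresh_single _ _).1 g2).2 t2 (by simp [NG.names])
      have n3 := @w3.1 t1
      have n4 := @w3.1 t2
      simp only [hΛ4, LG.pk_cons, NG.piece, LG.mem_T, LG.add_V, LG.add_S, Finset.mem_union,
        Finset.mem_singleton, Finset.notMem_empty, or_false, or_true, true_or, true_and] at n1 ⊢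
      clear * - n1 n2 n3 n4
      tauto
    obtain ⟨Λ5, e5, f6⟩ := exists_fresh ((C.add ⟨{a}, edge a s, {a}⟩).pk Λ4)
      (Multiset.replicate k (.leaf a))
    have f7 : Fresh (C.add ⟨{a}, edge a s, {a}⟩).V Λ4 := f4
    have gen := h.gen (Λ5 + Λ4) (by rw [Multiset.map_add, e5, e4]) ((fresh_add _ _ _).2 ⟨f6, f7⟩)
    rw [LG.pk_add] at gen
    have at1 := atts_pk (List.replicate k (.leaf a)) (Λ := Λ5)
      (wf_pk h.wf f7 (val_of_map (fun g hg => h.val g (Multiset.mem_add.2 (Or.inr hg))) e4))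
      (by rw [e5]; rfl) f6 (by
        intro g hg
        rw [List.eq_of_mem_replicate hg]
        exact Val.pk h.wf f7 (by simp [Val]))
    rw [LG.add_pk] at gen at1
    have eq : (C.add ⟨{a}, edge a s, ∅⟩).pk
        (⟨.link s1 a, t1, a1, l1, m1⟩ ::ₘ ⟨.link s2 a, t2, a2, l2, m2⟩ ::ₘ Λ3) =
        (C.pk Λ4).add ⟨{a}, edge a s ⊔ edge a t1 ⊔ edge a t2, ∅⟩ := by
      rw [LG.add_pk, hΛ4]
      simp only [LG.pk_cons, NG.piece]
      refine LG.ext' rfl (fun u v => ?_) rfl
      simp only [LG.add_G, sup_adj, edge_comm a t1, edge_comm a t2]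
      clear * -
      grind
    have at2 := att_piece (p := p) (e1 ▸ vg.pk w1 f) f1
    rw [LG.pk_cons]
    rw [e1] at at2
    rw [eq] at at2 ⊢
    exact Gen.o5 w4 a4 s4 hT.1 hT.2 at1 gen hg at2

theorem PP.o8 {C : LG} {L : Multiset Gad} {s x : ℕ} (h1 : PP C (.leaf s ::ₘ L))
    (h2 : PP C (.claw x ::ₘ L)) (h3 : PP C (.link s x ::ₘ L)) : PP C L := by
  have hL : ∀ g ∈ L, Val C g := fun g hg => h1.val g (Multiset.mem_cons_of_mem hg)
  refine ⟨h1.wf, hL, fun Λ e f => ?_⟩
  have key : ∀ g, PP C (g ::ₘ L) → ∃ P, Att (C.pk Λ) g P ∧ Gen P := fun g h => by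
    obtain ⟨t, rfl, f1⟩ := exists_fresh_one (C.pk Λ).V g
    refine ⟨_, att_piece ((h.val _ (Multiset.mem_cons_self _ _)).pk h.wf f) f1, ?_⟩
    rw [← LG.pk_cons]
    exact h.gen _ (by rw [Multiset.map_cons, e]) ((fresh_cons _ _ _).2 ⟨f1, f⟩)
  obtain ⟨P, a1, g1⟩ := key _ h1
  obtain ⟨Q, a2, g2⟩ := key _ h2
  obtain ⟨R, a3, g3⟩ := key _ h3
  exact Gen.o8 (wf_pk h1.wf f (val_of_map hL e)) a1 a2 a3 g1 g2 g3

theorem val_iso {C : LG} (hC : C.WF) {a : ℕ} (ha : a ∉ C.V) {g : Gad} (h : Val C g) :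
    Val (C.add ⟨{a}, ⊥, {a}⟩) g :=
  h.ext hC Finset.subset_union_left fun v hv => by
    have : v ≠ a := fun e => ha (e ▸ hv)
    simp [this]

theorem pk_claw (C : LG) (x w a l m : ℕ) (Λ : Multiset NG) :
    C.pk (⟨.claw x, w, a, l, m⟩ ::ₘ Λ) = (C.add ⟨{a}, ⊥, {a}⟩).pk
      (⟨.link a x, w, 0, 0, 0⟩ ::ₘ ⟨.leaf a, m, 0, 0, 0⟩ ::ₘ ⟨.leaf a, l, 0, 0, 0⟩ ::ₘ Λ) := by
  simp only [LG.pk_cons, LG.add_pk, NG.piece]
  rw [claw_eq, k2_eq]

theorem fresh_claw {C : LG} {x w a l m : ℕ} {Λ : Multiset NG} :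
    Fresh C.V (⟨.claw x, w, a, l, m⟩ ::ₘ Λ) ↔ a ∉ C.V ∧ Fresh (C.add ⟨{a}, ⊥, {a}⟩).V
      (⟨.link a x, w, 0, 0, 0⟩ ::ₘ ⟨.leaf a, m, 0, 0, 0⟩ ::ₘ ⟨.leaf a, l, 0, 0, 0⟩ ::ₘ Λ) := by
  simp only [Fresh, Multiset.cons_bind, NG.names, ← Multiset.cons_coe, Multiset.coe_nil,
    Multiset.singleton_add, Multiset.cons_add, zero_add, Multiset.nodup_cons, Multiset.mem_cons,
    LG.add_V, Finset.mem_union, Finset.mem_singleton]
  generalize Λ.bind NG.names = Z
  grind

theorem PP.fold {C : LG} (hC : C.WF) {L : Multiset Gad} {x : ℕ} (hx : x ∈ C.T)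
    (hL : ∀ g ∈ L, Val C g)
    (h : ∀ a ∉ C.V, PP (C.add ⟨{a}, ⊥, {a}⟩) (.link a x ::ₘ .leaf a ::ₘ .leaf a ::ₘ L)) :
    PP C (.claw x ::ₘ L) := by
  refine ⟨hC, fun g hg => ?_, fun Λ e f => ?_⟩
  · rcases Multiset.mem_cons.1 hg with rfl | hg
    · exact (LG.mem_T _ _).1 hx
    · exact hL g hg
  · obtain ⟨⟨g, w, a, l, m⟩, Λ', rfl, e1, e2⟩ := map_cons' e
    simp only at e1
    subst e1
    obtain ⟨f1, f2⟩ := fresh_claw.1 f
    rw [pk_claw]
    exact (h a f1).gen _ (by simp [e2]) f2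

theorem PP.unfold {C : LG} {L : Multiset Gad} {x a : ℕ} (h : PP C (.claw x ::ₘ L))
    (ha : a ∉ C.V) : PP (C.add ⟨{a}, ⊥, {a}⟩) (.link a x ::ₘ .leaf a ::ₘ .leaf a ::ₘ L) := by
  refine ⟨⟨Finset.union_subset_union h.wf.1 subset_rfl, (nv_iso h.wf ha _).wf'⟩,
    fun g hg => ?_, fun Λ e f => ?_⟩
  · simp only [Multiset.mem_cons] at hg
    rcases hg with rfl | rfl | rfl | hg
    · exact ⟨by simp, val_iso h.wf ha (h.val _ (Multiset.mem_cons_self _ _))⟩
    · simp [Val]
    · simp [Val]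
    · exact val_iso h.wf ha (h.val g (Multiset.mem_cons_of_mem hg))
  · obtain ⟨⟨g1, w, a1, l1, m1⟩, Λ1, rfl, e1, ea⟩ := map_cons' e
    obtain ⟨⟨g2, m, a2, l2, m2⟩, Λ2, rfl, e2, eb⟩ := map_cons' ea
    obtain ⟨⟨g3, l, a3, l3, m3⟩, Λ3, rfl, e3, ec⟩ := map_cons' eb
    simp only at e1 e2 e3
    subst e1 e2 e3
    have := h.gen (⟨.claw x, w, a, l, m⟩ ::ₘ Λ3) (by rw [Multiset.map_cons, ec])
      (fresh_claw.2 ⟨ha, by simpa only [Fresh, Multiset.cons_bind, NG.names] using f⟩)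
    rw [pk_claw] at this
    simpa only [LG.pk_cons, NG.piece] using this

theorem PP.o6claw {C : LG} {L : Multiset Gad} {s x : ℕ} (h : PP C (.leaf s ::ₘ L))
    (hx : x ∈ C.T) : PP C (.claw x ::ₘ .link s x ::ₘ .link s x ::ₘ L) := by
  have hs : s ∈ C.S := h.val (.leaf s) (Multiset.mem_cons_self _ _)
  have hx1 := (LG.mem_T _ _).1 hx
  refine PP.fold h.wf hx (fun g hg => ?_) fun a ha => ?_
  · simp only [Multiset.mem_cons] at hg
    rcases hg with rfl | rfl | hg
    · exact ⟨hs, hx1⟩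
    · exact ⟨hs, hx1⟩
    · exact h.val g (Multiset.mem_cons_of_mem hg)
  · have h1 := h.k2 ha
    rw [Multiset.cons_swap] at h1
    have h2 := h1.o6 (x := x) (p := a) ((LG.mem_T _ _).2 (val_iso h.wf ha (g := .claw x) hx1))
      (by simp)
    have e : (↑[Gad.link s x, .link s x, .link a x, .leaf a] : Multiset Gad) + .leaf a ::ₘ L =
        .link a x ::ₘ .leaf a ::ₘ .leaf a ::ₘ .link s x ::ₘ .link s x ::ₘ L := by
      simp only [← Multiset.cons_coe, Multiset.coe_nil, ← Multiset.singleton_add]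
      abel
    rwa [e] at h2

theorem PP.o7 {C : LG} (hC : C.WF) {a l v : ℕ} (ha : a ∉ C.V) (hl : l ∉ C.V) (hal : a ≠ l)
    {M : Multiset Gad} (hM : ∀ g ∈ M, g = .link a l ∨ g = .link a v ∨ g = .link v l)
    (h : PP (C.addK2 a l) M) : Gen C := by
  induction M using Quotient.inductionOn with
  | h M =>
    obtain ⟨Λ, e, f⟩ := exists_fresh (C.addK2 a l) ↑M
    exact Gen.o7 hC ha hl hal (fun g hg => hM g (Multiset.mem_coe.2 hg))
      (atts_pk M h.wf e f fun g hg => h.val g (Multiset.mem_coe.2 hg)) (h.gen Λ e f)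

theorem PP.recore {C : LG} {L M : Multiset Gad} (h : PP C (M + L)) {Λ : Multiset NG}
    (e : Λ.map NG.g = L) (f : Fresh C.V Λ) : PP (C.pk Λ) M := by
  refine ⟨wf_pk h.wf f (val_of_map (fun g hg => h.val g (Multiset.mem_add.2 (Or.inr hg))) e),
    fun g hg => (h.val g (Multiset.mem_add.2 (Or.inl hg))).pk h.wf f, fun Λ' e' f' => ?_⟩
  rw [← LG.pk_add]
  exact h.gen _ (by rw [Multiset.map_add, e, e']) ((fresh_add _ _ _).2 ⟨f', f⟩)

theorem PP.unclaw {C : LG} {x p : ℕ} (h : PP C {.claw x}) (hp : p ∈ C.S) :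
    PP C {.leaf p, .link p x} := by
  have hx1 : x ∈ C.V ∧ x ∉ C.S := h.val (.claw x) (Multiset.mem_singleton_self _)
  refine ⟨h.wf, by simp [Val, hp, hx1], fun Λ e f => ?_⟩
  obtain ⟨n, hn⟩ := (C.pk Λ).V.bddAbove
  have fr : ∀ k, n + (k + 1) ∉ (C.pk Λ).V := fun k c => by
    have := hn (Finset.mem_coe.2 c)
    omega
  have ha : n + 1 ∉ (C.pk Λ).V := fr 0
  have hl : n + 2 ∉ (C.pk Λ).V := fr 1
  have hal : n + 1 ≠ n + 2 := by omega
  generalize n + 1 = a at ha hal
  generalize n + 2 = l at hl hal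
  have ha' : a ∉ C.V := fun c => ha (C.sub_pk Λ c)
  have hl' : l ∉ C.V := fun c => hl (C.sub_pk Λ c)
  have h1 := PP.unfold (L := 0) h ha'
  rw [Multiset.cons_swap] at h1
  have h2 := h1.o6 (x := x) (p := p) ((LG.mem_T _ _).2 (val_iso h.wf ha' (g := .claw x) hx1))
    (by simp [hp])
  have e1 : (↑[Gad.link a x, .link a x, .link p x, .leaf p] : Multiset Gad) +
      .link a x ::ₘ .leaf a ::ₘ 0 =
      .leaf a ::ₘ ({.link a x, .link a x, .link a x} + {.leaf p, .link p x}) := by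
    simp only [← Multiset.cons_coe, Multiset.coe_nil, Multiset.insert_eq_cons,
      ← Multiset.singleton_add]
    abel
  rw [e1] at h2
  have h3 := h2.newLeaf (q := l) (by simp [hl', hal.symm])
  rw [← k2_eq] at h3
  have h4 := h3.recore e ⟨f.1, fun u hu c => by
    have c1 := f.2 u hu
    have c2 := (C.mem_pk_V Λ u).2 (Or.inr hu)
    simp only [LG.addK2_V, Finset.mem_union, Finset.mem_insert, Finset.mem_singleton] at c
    grind⟩
  have e2 : (C.addK2 a l).pk Λ = (C.pk Λ).addK2 a l := LG.add_pk _ _ _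
  rw [e2] at h4
  refine PP.o7 (v := x) (wf_pk h.wf f (val_of_map (by simp [Val, hp, hx1]) e)) ha hl hal ?_ h4
  simp

theorem elim_links {H : LG} (w : H.WF) {a l : ℕ} (ha : a ∉ H.V) (hl : l ∉ H.V) (hal : a ≠ l)
    (B : Finset ℕ) (hB : B ⊆ H.V) (Lk : List (ℕ × ℕ))
    (hL : ∀ p ∈ Lk, (p.1 ∈ B ∨ p.1 = a) ∧ (p.2 ∈ B ∨ p.2 = l))
    (h : PP (H.addK2 a l) ↑(Lk.map fun p => Gad.link p.1 p.2))
    (hg : ∀ v ∈ B, PP (H.addK2 a l) {H.guard v}) : Gen H := by
  rcases B.eq_empty_or_nonempty with rfl | ⟨v, hv⟩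
  · refine PP.o7 (v := a) w ha hl hal (fun g hg => ?_) h
    obtain ⟨p, hp, rfl⟩ := List.mem_map.1 (Multiset.mem_coe.1 hg)
    have := hL p hp
    simp only [Finset.notMem_empty, false_or] at this
    rw [this.1, this.2]
    exact Or.inl rfl
  have aS : a ∈ (H.addK2 a l).S := by simp
  have lT : l ∈ (H.addK2 a l).T := by
    have : l ∉ H.S := fun c => hl (w.1 c)
    simp [this, hal.symm]
  have vl : Val (H.addK2 a l) (.link a l) := ⟨aS, (LG.mem_T _ _).1 lT⟩
  obtain ⟨X, x1, x2⟩ : ∃ X : Multiset Gad,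
      (∀ g ∈ X, g = .link a l ∨ g = .link a v ∨ g = .link v l) ∧
        PP (H.addK2 a l) (.leaf a ::ₘ X) := by
    have := hg v hv
    unfold LG.guard at this
    split_ifs at this with c
    · have h1 := PP.o6 (L := 0) this lT aS
      refine ⟨{.link v l, .link v l, .link a l}, by simp, ?_⟩
      have e : (↑[Gad.link v l, .link v l, .link a l, .leaf a] : Multiset Gad) + 0 =
          .leaf a ::ₘ {.link v l, .link v l, .link a l} := by
        simp only [← Multiset.cons_coe, Multiset.coe_nil, Multiset.insert_eq_cons,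
          ← Multiset.singleton_add]
        abel
      rwa [e] at h1
    · exact ⟨{.link a v}, by simp, this.unclaw aS⟩
  have x3 := x2.o6claw lT
  set Y : Multiset Gad := .link a l ::ₘ .link a l ::ₘ X with hY
  have vY : ∀ g ∈ Y, Val (H.addK2 a l) g := fun g hg => x3.val g (Multiset.mem_cons_of_mem hg)
  have x4 : PP (H.addK2 a l) (.leaf a ::ₘ Y) := by
    have := (x2.cons vl).cons vl
    rwa [Multiset.cons_swap (Gad.link a l) (.leaf a), Multiset.cons_swap (Gad.link a l) (.leaf a)]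
      at this
  have key : ∀ Lk : List (ℕ × ℕ), (∀ p ∈ Lk, (p.1 ∈ B ∨ p.1 = a) ∧ (p.2 ∈ B ∨ p.2 = l)) →
      PP (H.addK2 a l) (↑(Lk.map fun p => Gad.link p.1 p.2) + Y) → PP (H.addK2 a l) Y := by
    intro Lk
    induction Lk with
    | nil => intro _ h; simpa using h
    | cons p Lk ih =>
      intro hL h
      rw [List.map_cons, ← Multiset.cons_coe, Multiset.cons_add] at h
      refine ih (fun q hq => hL q (List.mem_cons_of_mem _ hq)) (PP.o8 ?_ ?_ h)
      all_goals
        obtain ⟨p1, p2⟩ := hL p List.mem_cons_self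
        obtain ⟨v1, v2, v3⟩ := h.val _ (Multiset.mem_cons_self _ _)
      · have hv : ∀ g ∈ Gad.leaf p.1 ::ₘ (↑(Lk.map fun p => Gad.link p.1 p.2) + Y),
            Val (H.addK2 a l) g := fun g hg => by
          rcases Multiset.mem_cons.1 hg with rfl | hg
          · exact v1
          · exact h.val g (Multiset.mem_cons_of_mem hg)
        rcases p1 with c | c
        · have c1 : p.1 ∈ H.S := by
            have : p.1 ≠ a := fun e => ha (e ▸ hB c)
            simpa [this] using v1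
          have := hg _ c
          rw [LG.guard, if_pos c1] at this
          exact this.mono (by simp) hv
        · rw [c] at hv ⊢
          exact x4.mono (Multiset.cons_le_cons _ (Multiset.le_add_left _ _)) hv
      · have hv : ∀ g ∈ Gad.claw p.2 ::ₘ (↑(Lk.map fun p => Gad.link p.1 p.2) + Y),
            Val (H.addK2 a l) g := fun g hg => by
          rcases Multiset.mem_cons.1 hg with rfl | hg
          · exact ⟨v2, v3⟩
          · exact h.val g (Multiset.mem_cons_of_mem hg)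
        rcases p2 with c | c
        · have c1 : p.2 ∉ H.S := fun d => v3 (Finset.mem_union_left _ d)
          have := hg _ c
          rw [LG.guard, if_neg c1] at this
          exact this.mono (by simp) hv
        · rw [c] at hv ⊢
          exact x3.mono (Multiset.cons_le_cons _ (Multiset.le_add_left _ _)) hv
  refine PP.o7 (v := v) w ha hl hal (fun g hg => ?_) (key Lk hL ?_)
  · simp only [hY, Multiset.mem_cons] at hg
    rcases hg with rfl | rfl | hg
    · exact Or.inl rfl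
    · exact Or.inl rfl
    · exact x1 g hg
  · rw [add_comm]
    exact h.more Y vY

end Pool.Agent.Work.MP_4489ea_co.HJ
end

-- merged part: Pool.Agent.Work.MP_4489ea_co.HJ.Tok
section
/-!
Bookkeeping of the gadgets used while a graph with two relevant states is built.
-/

namespace Pool.Agent.Work.MP_4489ea_co.HJ

open SimpleGraph

/-- Four types of vertices: marked and fixed, marked and flipping, unmarked and flipping, unmarked
and fixed. -/
structure Ty where
  S1 : Finset ℕ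
  Sb : Finset ℕ
  Tc : Finset ℕ
  T0 : Finset ℕ
  s0 : ℕ
  z : ℕ
  hs0 : s0 ∈ Sb
  hz : z ∈ Tc
  dj : ∀ v, ¬ (v ∈ S1 ∧ v ∈ Sb) ∧ ¬ (v ∈ S1 ∧ v ∈ Tc) ∧ ¬ (v ∈ S1 ∧ v ∈ T0) ∧
    ¬ (v ∈ Sb ∧ v ∈ Tc) ∧ ¬ (v ∈ Sb ∧ v ∈ T0) ∧ ¬ (v ∈ Tc ∧ v ∈ T0)

/-- Gadgets that may stay; leaves at vertices of `R` are temporary. -/
def Ty.OK (τ : Ty) (R : Finset ℕ) : Gad → Prop
  | .leaf s => s ∈ τ.S1 ∨ s ∈ R
  | .link s x => s ∈ τ.Sb ∧ x ∈ τ.Tc
  | .claw x => x ∈ τ.T0

/-- The core `K` is generated with the gadgets `M`, at most `k` leaves at flipping marked vertices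
and further harmless gadgets. -/
def Ty.Q (τ : Ty) (K : LG) (R : Finset ℕ) (k : ℕ) (M : Multiset Gad) : Prop :=
  ∃ (Tok : Multiset ℕ) (L : Multiset Gad), Tok.card ≤ k ∧ (∀ s ∈ Tok, s ∈ τ.Sb) ∧
    (∀ g ∈ L, τ.OK R g) ∧ PP K (M + (Tok.map Gad.leaf + L))

/-- Add edges. -/
def LG.ae (K : LG) (G : SimpleGraph ℕ) : LG := ⟨K.V, K.G ⊔ G, K.S⟩

theorem LG.join_eq (K : LG) (u v : ℕ) : K.join u v = K.ae (edge u v) :=
  LG.ext' (by simp [LG.ae]) (by simp [LG.ae]) (by simp [LG.ae])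

theorem LG.ae_ae (K : LG) (G G' : SimpleGraph ℕ) : (K.ae G).ae G' = K.ae (G ⊔ G') := by
  simp only [LG.ae, sup_assoc]

theorem LG.ae_bot (K : LG) : K.ae ⊥ = K := by simp [LG.ae]

/-- The edges from `v` to the vertices of `Y`. -/
def star (v : ℕ) (Y : Finset ℕ) : SimpleGraph ℕ := fromRel fun a b => a = v ∧ b ∈ Y

namespace Ty

variable {τ : Ty} {K K' : LG} {R : Finset ℕ} {k : ℕ} {M M' : Multiset Gad}

theorem Q.wf (h : τ.Q K R k M) : K.WF := by
  obtain ⟨_, _, _, _, _, h⟩ := h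
  exact h.wf

theorem Q.map (h : τ.Q K R k M) (f : ∀ L, PP K (M + L) → PP K' (M' + L)) : τ.Q K' R k M' := by
  obtain ⟨Tok, L, a, b, c, d⟩ := h
  exact ⟨Tok, L, a, b, c, f _ d⟩

theorem Q.absorb (h : τ.Q K R k M) (hM : ∀ g ∈ M, τ.OK R g) : τ.Q K R k 0 := by
  obtain ⟨Tok, L, a, b, c, d⟩ := h
  refine ⟨Tok, M + L, a, b, fun g hg => (Multiset.mem_add.1 hg).elim (hM g) (c g), ?_⟩
  rwa [zero_add, add_left_comm]

theorem Q.absorb' {N : Multiset Gad} (h : τ.Q K R k (M + N)) (hM : ∀ g ∈ N, τ.OK R g) :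
    τ.Q K R k M := by
  obtain ⟨Tok, L, a, b, c, d⟩ := h
  refine ⟨Tok, N + L, a, b, fun g hg => (Multiset.mem_add.1 hg).elim (hM g) (c g), ?_⟩
  rwa [add_left_comm (Tok.map _), ← add_assoc]

theorem Q.tok {s : ℕ} (h : τ.Q K R k (.leaf s ::ₘ M)) (hs : s ∈ τ.Sb) : τ.Q K R (k + 1) M := by
  obtain ⟨Tok, L, a, b, c, d⟩ := h
  refine ⟨s ::ₘ Tok, L, by simpa using a, fun t ht => ?_, c, ?_⟩
  · rcases Multiset.mem_cons.1 ht with rfl | ht
    · exact hs
    · exact b t ht
  · rwa [Multiset.map_cons, Multiset.cons_add, Multiset.add_cons, ← Multiset.cons_add]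

theorem Q.pad (h : τ.Q K R k M) (h0 : τ.s0 ∈ K.S) :
    ∃ s ∈ τ.Sb, τ.Q K R (k - 1) (.leaf s ::ₘ M) := by
  obtain ⟨Tok, L, a, b, c, d⟩ := h
  rcases Multiset.empty_or_exists_mem Tok with rfl | ⟨s, hs⟩
  · refine ⟨τ.s0, τ.hs0, 0, L, by simp, b, c, ?_⟩
    rw [Multiset.cons_add]
    exact d.cons h0
  · obtain ⟨Tok, rfl⟩ := Multiset.exists_cons_of_mem hs
    refine ⟨s, b s hs, Tok, L, ?_, fun t ht => b t (Multiset.mem_cons_of_mem ht), c, ?_⟩
    · rw [Multiset.card_cons] at a; omega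
    · rwa [Multiset.map_cons, Multiset.cons_add, Multiset.add_cons, ← Multiset.cons_add] at d

theorem Q.weak {k' : ℕ} (h : τ.Q K R k M) (hk : k ≤ k') : τ.Q K R k' M := by
  obtain ⟨Tok, L, a, b, c, d⟩ := h
  exact ⟨Tok, L, a.trans hk, b, c, d⟩

theorem Q.more (h : τ.Q K R k 0) {g : Gad} (hg : Val K g) : τ.Q K R k {g} :=
  h.map fun L d => by
    rw [zero_add] at d
    rw [Multiset.singleton_add]
    exact d.cons hg

theorem Q.val {g : Gad} (h : τ.Q K R k (g ::ₘ M)) : Val K g := by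
  obtain ⟨Tok, L, a, b, c, d⟩ := h
  exact d.val g (by simp)

/-- The edge `u v` can be added at the price of harmless gadgets. -/
def Jok (τ : Ty) (K : LG) (R : Finset ℕ) (u v : ℕ) : Prop :=
  (u ∈ K.S ∧ v ∈ K.S ∨ u ∈ K.T ∧ v ∈ K.T) ∧
    ∃ M, Bind K u v M ∧ ∀ g ∈ M, Val K g ∧ τ.OK R g

theorem Q.joinAll (h : τ.Q K R k 0) (E : Finset (ℕ × ℕ)) (hE : ∀ p ∈ E, τ.Jok K R p.1 p.2) :
    τ.Q (K.ae (fromRel fun u v => (u, v) ∈ E)) R k 0 := by
  induction E using Finset.induction_on with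
  | empty =>
    have : (fromRel fun u v : ℕ => (u, v) ∈ (∅ : Finset (ℕ × ℕ))) = ⊥ := by ext; simp
    rwa [this, LG.ae_bot]
  | insert p E _ ih =>
    have ih := ih fun q hq => hE q (Finset.mem_insert_of_mem hq)
    obtain ⟨a, M, b, c⟩ := hE p (Finset.mem_insert_self _ _)
    have e : K.ae (fromRel fun u v => (u, v) ∈ insert p E) =
        (K.ae (fromRel fun u v => (u, v) ∈ E)).join p.1 p.2 := by
      rw [LG.join_eq, LG.ae_ae]
      congr 1
      ext u v
      obtain ⟨p1, p2⟩ := p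
      simp only [fromRel_adj, Finset.mem_insert, Prod.mk.injEq, sup_adj, edge_adj]
      clear * -
      grind
    rw [e]
    refine Q.absorb (M := ↑M) (ih.map fun L d => ?_) fun g hg => (c g (Multiset.mem_coe.1 hg)).2
    rw [zero_add] at d
    refine d.o3 a b fun g hg => ?_
    have := (c g hg).1
    cases g <;> exact this

theorem Q.multi (h : τ.Q K R k 0) {v : ℕ} {Y : Finset ℕ} (hY : 2 ≤ Y.card)
    (step : ∀ G y y', y ∈ Y → y' ∈ Y → y ≠ y' → τ.Q (K.ae G) R k 0 →
      τ.Q (((K.ae G).join v y).join v y') R k 0) : τ.Q (K.ae (star v Y)) R k 0 := by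
  obtain ⟨y0, h0, y1, h1, hne⟩ := Finset.one_lt_card.1 hY
  have key : ∀ Y' : Finset ℕ, Y' ⊆ Y.erase y0 →
      τ.Q (K.ae (fromRel fun a b => a = v ∧ ∃ y ∈ Y', b = y ∨ b = y0)) R k 0 := by
    intro Y'
    induction Y' using Finset.induction_on with
    | empty =>
      intro _
      have : (fromRel fun a b : ℕ => a = v ∧ ∃ y ∈ (∅ : Finset ℕ), b = y ∨ b = y0) = ⊥ := by
        ext; simp
      rwa [this, LG.ae_bot]
    | insert y Y' _ ih =>
      intro hs
      have hy := Finset.mem_erase.1 (hs (Finset.mem_insert_self _ _))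
      have := step _ y y0 hy.2 h0 hy.1 (ih ((Finset.subset_insert _ _).trans hs))
      rw [LG.join_eq, LG.join_eq, LG.ae_ae, LG.ae_ae] at this
      have e : (fromRel fun a b : ℕ => a = v ∧ ∃ y' ∈ insert y Y', b = y' ∨ b = y0) =
          (fromRel fun a b : ℕ => a = v ∧ ∃ y' ∈ Y', b = y' ∨ b = y0) ⊔
            (edge v y ⊔ edge v y0) := by
        ext a b
        simp only [fromRel_adj, Finset.mem_insert, sup_adj, edge_adj, exists_eq_or_imp]
        generalize (∃ c ∈ Y', b = c ∨ b = y0) = P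
        generalize (∃ c ∈ Y', a = c ∨ a = y0) = P'
        grind
      rwa [e]
  have e : star v Y = fromRel fun a b : ℕ => a = v ∧ ∃ y ∈ Y.erase y0, b = y ∨ b = y0 := by
    unfold star
    congr 1
    funext a b
    refine propext (and_congr_right fun _ => ⟨fun hb => ?_, ?_⟩)
    · by_cases c : b = y0
      · exact ⟨y1, Finset.mem_erase.2 ⟨hne.symm, h1⟩, Or.inr c⟩
      · exact ⟨b, Finset.mem_erase.2 ⟨c, hb⟩, Or.inl rfl⟩
    · rintro ⟨y, hy, rfl | rfl⟩
      · exact (Finset.mem_erase.1 hy).2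
      · exact h0
  rw [e]
  exact key _ subset_rfl

theorem Q.starS (h : τ.Q K R k 0) {s : ℕ} {Y : Finset ℕ} (hs : s ∈ K.S) (hb : s ∈ τ.Sb)
    (hY : ∀ y ∈ Y, y ∈ K.S ∧ τ.OK R (.leaf y)) :
    τ.Q (K.ae (star s Y)) R (k + if Y.card = 1 then 1 else 0) 0 := by
  split_ifs with c
  · obtain ⟨y, rfl⟩ := Finset.card_eq_one.1 c
    obtain ⟨y1, y2⟩ := hY y (Finset.mem_singleton_self _)
    have e : star s {y} = edge s y := by
      ext a b
      simp only [star, fromRel_adj, Finset.mem_singleton, edge_adj]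
      tauto
    rw [e, ← LG.join_eq]
    refine Q.tok (Q.absorb' (N := {.leaf y}) (h.map fun L d => ?_) (by simpa using y2)) hb
    rw [zero_add] at d
    exact d.o3 (M := [.leaf s, .leaf y]) (Or.inl ⟨hs, y1⟩)
      (Or.inl (by simp [LG.guard, hs, y1])) (by simp [Val, hs, y1])
  · rcases Nat.eq_zero_or_pos Y.card with c0 | c0
    · rw [Finset.card_eq_zero.1 c0]
      have : star s ∅ = ⊥ := by ext; simp [star]
      rwa [this, LG.ae_bot]
    · refine h.multi (by omega) fun G y y' hy hy' hne d => ?_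
      refine Q.absorb (M := ↑[Gad.leaf y, .leaf y']) (d.map fun L d => ?_) ?_
      · rw [zero_add] at d
        exact d.o4S hs (hY y hy).1 (hY y' hy').1 hne
      · simpa using ⟨(hY y hy).2, (hY y' hy').2⟩

theorem Q.starT (h : τ.Q K R k 0) {q : ℕ} {Y : Finset ℕ} (hq : q ∈ K.T) (hb : q ∈ τ.T0)
    (h0 : τ.s0 ∈ K.S) (hY : ∀ y ∈ Y, y ∈ K.T ∧ y ∈ τ.Tc) (h2 : 2 ≤ Y.card) :
    τ.Q (K.ae (star q Y)) R k 0 := by
  refine h.multi h2 fun G y y' hy hy' hne d => ?_
  refine Q.absorb (M := ↑[Gad.claw q, .claw q, .link τ.s0 y, .link τ.s0 y, .link τ.s0 y',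
    .link τ.s0 y']) (d.map fun L d => ?_) ?_
  · rw [zero_add] at d
    exact d.o4T hq (hY y hy).1 (hY y' hy').1 hne h0
  · simp [OK, hb, τ.hs0, (hY y hy).2, (hY y' hy').2]

theorem Q.turn (h : τ.Q K R k 0) {a p : ℕ} (ha : a ∈ K.S) (hc : a ∈ τ.Tc) (hp : p ∈ K.S)
    (hp' : p ∈ τ.S1 ∨ p ∈ τ.Sb) (hN : ∀ v, K.G.Adj a v ↔ v = p) (h0 : τ.s0 ∈ K.S) :
    τ.Q ⟨K.V, K.G, K.S.erase a⟩ (R.erase a) (k - 2) 0 := by
  classical
  have hK := h.wf
  obtain ⟨s2, b2, h⟩ := h.pad h0
  obtain ⟨s1, b1, h⟩ := h.pad h0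
  obtain ⟨Tok, L, c1, c2, c3, d⟩ := h
  have dj := τ.dj
  have pa : p ≠ a := by have := dj p; grind
  let C : LG := ⟨K.V.erase a, fromRel fun u v => K.G.Adj u v ∧ u ≠ a ∧ v ≠ a, K.S.erase a⟩
  have hC : C.WF := by
    refine ⟨Finset.erase_subset_erase _ hK.1, fun u v huv => ?_⟩
    have := hK.2 u v
    have := hK.2 u v ∘ K.G.adj_symm
    simp only [C, fromRel_adj, Finset.mem_erase] at huv ⊢
    tauto
  have eG : ∀ u v, K.G.Adj u v ↔ (C.G ⊔ edge a p).Adj u v := by
    intro u v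
    have := hN u
    have := hN v
    have := K.G.adj_comm u v
    have := @SimpleGraph.Adj.ne _ K.G u v
    simp only [C, sup_adj, fromRel_adj, edge_adj]
    grind
  have eV : K.V = C.V ∪ {a} := by
    rw [Finset.union_singleton, Finset.insert_erase (hK.1 ha)]
  have e1 : K = C.add ⟨{a}, edge a p, {a}⟩ :=
    LG.ext' eV eG (by rw [LG.add_S, Finset.union_singleton, Finset.insert_erase ha])
  have e2 : (⟨K.V, K.G, K.S.erase a⟩ : LG) = C.add ⟨{a}, edge a p, ∅⟩ :=
    LG.ext' eV eG (by simp [C])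
  have memC : ∀ s, s ∈ K.S → s ≠ a → s ∈ C.S := fun s h1 h2 => Finset.mem_erase.2 ⟨h2, h1⟩
  have hL : L = Multiset.replicate (L.count (.leaf a)) (.leaf a) +
      L.filter fun g => ¬ g = .leaf a := by
    rw [← Multiset.filter_eq', Multiset.filter_add_not]
  set L' := L.filter fun g => ¬ g = .leaf a with hL'
  have v1 : s1 ∈ K.S := d.val (.leaf s1) (by simp)
  have v2 : s2 ∈ K.S := d.val (.leaf s2) (by simp)
  have key := PP.o5 hC (L := Tok.map Gad.leaf + L') (a := a) (s := p) (s1 := s1) (s2 := s2)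
    (k := L.count (.leaf a)) (g := if p ∈ τ.S1 then .leaf p else .link p a)
    (by simp [C]) (memC p hp pa) (memC s1 v1 (by have := dj s1; grind))
    (memC s2 v2 (by have := dj s2; grind)) ?_ (by split_ifs <;> simp) ?_
  · rw [e2]
    refine ⟨Tok, (if p ∈ τ.S1 then Gad.leaf p else .link p a) ::ₘ .link s1 a ::ₘ .link s2 a ::ₘ L',
      by omega, c2, ?_, ?_⟩
    · intro g hg
      simp only [Multiset.mem_cons] at hg
      rcases hg with rfl | rfl | rfl | hg
      · split_ifs with c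
        · exact Or.inl c
        · exact ⟨hp'.resolve_left c, hc⟩
      · exact ⟨b1, hc⟩
      · exact ⟨b2, hc⟩
      · obtain ⟨g1, g2⟩ := Multiset.mem_filter.1 hg
        have := c3 g g1
        cases g with
        | leaf s =>
          exact this.imp_right fun c => Finset.mem_erase.2 ⟨fun e => g2 (by rw [e]), c⟩
        | link => exact this
        | claw => exact this
    · simpa only [zero_add, Multiset.add_cons] using key
  · intro g hg
    rcases Multiset.mem_add.1 hg with hg | hg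
    · obtain ⟨s, hs, rfl⟩ := Multiset.mem_map.1 hg
      have : s ∈ K.S := d.val (.leaf s) (by simp [hs])
      exact memC s this (by have := dj s; have := c2 s hs; grind)
    · obtain ⟨g1, g2⟩ := Multiset.mem_filter.1 hg
      have o := c3 g g1
      have v := d.val g (by simp [g1])
      cases g with
      | leaf s => exact memC s v fun e => g2 (by rw [e])
      | link s x =>
        have := dj s
        simp only [OK, Val, C, Finset.mem_erase] at o v ⊢
        grind
      | claw x =>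
        simp only [OK, Val, C, Finset.mem_erase] at o v ⊢
        grind
  · rw [← e1]
    have : Multiset.replicate (L.count (.leaf a)) (Gad.leaf a) +
        Gad.leaf s1 ::ₘ Gad.leaf s2 ::ₘ (Tok.map Gad.leaf + L') =
        Gad.leaf s1 ::ₘ Gad.leaf s2 ::ₘ 0 + (Tok.map Gad.leaf + L) := by
      conv_rhs => rw [hL]
      simp only [← Multiset.singleton_add]
      abel
    rwa [this]

end Ty

end Pool.Agent.Work.MP_4489ea_co.HJ
end
end

-- merged part: Pool.Agent.Work.MP_4489ea_co.HJ.Leaf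
section
/-!
Building a graph whose vertices are typed, from the count of its second state.
-/

namespace Pool.Agent.Work.MP_4489ea_co.HJ

open SimpleGraph

theorem star_empty (v : ℕ) : star v ∅ = ⊥ := by ext; simp [star]

theorem star_single (v y : ℕ) : star v {y} = edge v y := by
  ext a b
  simp only [star, fromRel_adj, Finset.mem_singleton, edge_adj]
  grind

namespace Ty

variable {τ : Ty} {K : LG} {R : Finset ℕ} {k : ℕ}

theorem Q.grow {q p : ℕ} {Y0 Y : Finset ℕ}
    (h : τ.Q (K.add ⟨{q}, edge q p ⊔ star q Y0, ∅⟩) R k 0) (hK : K.WF) (hq : q ∉ K.V)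
    (hb : q ∈ τ.T0) (h0 : τ.s0 ∈ K.S) (hY : ∀ y ∈ Y, y ∈ K.T ∧ y ∈ τ.Tc) (hs : Y0 ⊆ Y)
    (h2 : Y0 = Y ∨ 2 ≤ Y.card) : τ.Q (K.add ⟨{q}, edge q p ⊔ star q Y, ∅⟩) R k 0 := by
  rcases h2 with rfl | h2
  · exact h
  · have := h.starT (q := q) (Y := Y) (by simpa using fun c => hq (hK.1 c)) hb (by simpa using h0)
      (fun y hy => ⟨by have := (hY y hy).1; simp only [LG.mem_T] at this; simp [this],
        (hY y hy).2⟩) h2
    have e : (K.add ⟨{q}, edge q p ⊔ star q Y0, ∅⟩).ae (star q Y) =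
        K.add ⟨{q}, edge q p ⊔ star q Y, ∅⟩ := by
      refine LG.ext' rfl (fun u v => ?_) rfl
      have := @hs u
      have := @hs v
      simp only [LG.ae, LG.add_G, sup_adj, star, fromRel_adj]
      grind
    rwa [e] at this

theorem Q.newT (h : τ.Q K R k 0) {q p : ℕ} {Y : Finset ℕ} (hq : q ∉ K.V) (hb : q ∈ τ.T0)
    (h0 : τ.s0 ∈ K.S) (hz : τ.z ∈ K.T) (hp : p ∈ K.S) (hp' : p ∈ τ.S1 ∨ p ∈ τ.Sb)
    (hY : ∀ y ∈ Y, y ∈ K.T ∧ y ∈ τ.Tc) :
    τ.Q (K.add ⟨{q}, edge q p ⊔ star q Y, ∅⟩) R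
      (k - if (p ∈ τ.S1 ∧ Y = ∅) ∨ (p ∉ τ.S1 ∧ Y.card = 1) then 0 else 1) 0 := by
  have hK := h.wf
  have leafc : ∀ k, τ.Q K R k {.leaf p} →
      τ.Q (K.add ⟨{q}, edge q p ⊔ star q ∅, ∅⟩) R k 0 := fun k h => h.map fun L d => by
    rw [star_empty, sup_bot_eq, zero_add]
    exact PP.newLeaf d hq
  have linkc : ∀ k x, τ.Q K R k {.link p x} →
      τ.Q (K.add ⟨{q}, edge q p ⊔ star q {x}, ∅⟩) R k 0 := fun k x h => h.map fun L d => by
    rw [star_single, zero_add]
    exact PP.newLink d hq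
  split_ifs with c
  · rcases c with ⟨-, rfl⟩ | ⟨-, c⟩
    · exact leafc _ (h.more hp)
    · obtain ⟨x, rfl⟩ := Finset.card_eq_one.1 c
      exact linkc _ x (h.more ⟨hp, (LG.mem_T _ _).1 (hY x (Finset.mem_singleton_self _)).1⟩)
  · obtain ⟨s, hs, h1⟩ := h.pad h0
    by_cases c1 : p ∈ τ.S1
    · have : Y.Nonempty := Finset.nonempty_iff_ne_empty.2 fun e => c (Or.inl ⟨c1, e⟩)
      obtain ⟨x, hx⟩ := this
      have h2 : τ.Q K R (k - 1) ({.link p x} + ↑[Gad.link s x, .link s x, .leaf p]) :=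
        h1.map fun L d => by
          have := PP.o6 (s := s) (L := L) d (hY x hx).1 hp
          have e : (↑[Gad.link s x, .link s x, .link p x, .leaf p] : Multiset Gad) =
              {.link p x} + ↑[Gad.link s x, .link s x, .leaf p] := by
            simp only [← Multiset.cons_coe, Multiset.coe_nil, ← Multiset.singleton_add]
            abel
          rwa [e] at this
      have h3 := linkc _ x (h2.absorb' (by simp [OK, hs, c1, (hY x hx).2]))
      refine h3.grow hK hq hb h0 hY (by simpa using hx) ?_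
      rcases Nat.lt_or_ge Y.card 2 with c2 | c2
      · left
        refine Finset.eq_of_subset_of_card_le (by simpa using hx) ?_
        rw [Finset.card_singleton]; omega
      · exact Or.inr c2
    · have h2 : τ.Q K R (k - 1) ({.leaf p} + ↑[Gad.link s τ.z, .link s τ.z, .link p τ.z]) :=
        h1.map fun L d => by
          have := PP.o6 (s := s) (L := L) d hz hp
          have e : (↑[Gad.link s τ.z, .link s τ.z, .link p τ.z, .leaf p] : Multiset Gad) =
              {.leaf p} + ↑[Gad.link s τ.z, .link s τ.z, .link p τ.z] := by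
            simp only [← Multiset.cons_coe, Multiset.coe_nil, ← Multiset.singleton_add]
            abel
          rwa [e] at this
      have h3 := leafc _ (h2.absorb' (by simp [OK, hs, hp'.resolve_left c1, τ.hz]))
      refine h3.grow hK hq hb h0 hY (Finset.empty_subset _) ?_
      rcases Nat.eq_zero_or_pos Y.card with c2 | c2
      · exact Or.inl (Finset.card_eq_zero.1 c2).symm
      · have : Y.card ≠ 1 := fun e => c (Or.inr ⟨c1, e⟩)
        exact Or.inr (by omega)

theorem stageA (τ : Ty) (U : Finset ℕ) (hU : ∀ u ∈ U, u ∈ τ.S1 ∨ u ∈ τ.Sb ∨ u ∈ τ.Tc) :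
    τ.Q ⟨U, ⊥, U⟩ τ.Tc (U ∩ τ.Sb).card 0 := by
  induction U using Finset.induction_on with
  | empty =>
    refine ⟨0, 0, by simp, by simp, by simp, ⟨by simp, by simp⟩, by simp, fun Λ e _ => ?_⟩
    obtain rfl : Λ = 0 := by simpa using e
    exact Gen.empty
  | insert a U ha ih =>
    have ih := ih fun u hu => hU u (Finset.mem_insert_of_mem hu)
    have e : (⟨insert a U, ⊥, insert a U⟩ : LG) = LG.add ⟨U, ⊥, U⟩ ⟨{a}, ⊥, {a}⟩ :=
      LG.ext' (by simp) (by simp) (by simp)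
    have h1 : τ.Q ⟨insert a U, ⊥, insert a U⟩ τ.Tc (U ∩ τ.Sb).card (.leaf a ::ₘ 0) :=
      ih.map fun L d => by
        rw [e]
        rw [zero_add] at d
        simpa only [Multiset.cons_add, zero_add] using d.k2 ha
    by_cases c : a ∈ τ.Sb
    · rw [Finset.insert_inter_of_mem c,
        Finset.card_insert_of_notMem fun d => ha (Finset.mem_inter.1 d).1]
      exact h1.tok c
    · rw [Finset.insert_inter_of_notMem c]
      have := hU a (Finset.mem_insert_self _ _)
      exact h1.absorb (by simp only [Multiset.cons_zero, Multiset.mem_singleton, forall_eq, OK]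
                          grind)

open Classical in
theorem cst_card (G : SimpleGraph ℕ) {D : Finset ℕ} {v : ℕ} (hv : v ∉ D) :
    cst G D v = if (D.filter (G.Adj v)).card = 1 then 0 else 1 := by
  have : (D.filter (G.Adj v)).card = 1 ↔ ∃! u, u ∈ D ∧ G.Adj v u := by
    rw [Finset.card_eq_one_iff_existsUnique]
    simp only [Finset.mem_filter]
  split_ifs with c
  · exact cst_good G hv (this.1 c)
  · exact cst_bad G hv fun d => c (this.2 d)

theorem stageB (τ : Ty) (G : SimpleGraph ℕ) {W : Finset ℕ} {k : ℕ}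
    (hW : ∀ u, u ∈ W ↔ u ∈ τ.S1 ∨ u ∈ τ.Sb ∨ u ∈ τ.Tc) (h : τ.Q ⟨W, ⊥, W⟩ τ.Tc k 0)
    (U : Finset ℕ) (hU : U ⊆ τ.Sb) :
    τ.Q (LG.ae ⟨W, ⊥, W⟩ (fromRel fun u v => u ∈ U ∧ v ∈ τ.S1 ∪ τ.Tc ∧ G.Adj u v)) τ.Tc
      (k + ∑ s ∈ U, (1 - cst G (τ.S1 ∪ τ.Tc) s)) 0 := by
  classical
  induction U using Finset.induction_on with
  | empty =>
    have : (fromRel fun u v : ℕ => u ∈ (∅ : Finset ℕ) ∧ v ∈ τ.S1 ∪ τ.Tc ∧ G.Adj u v) = ⊥ := by
      ext; simp
    rwa [this, LG.ae_bot]
  | insert s U hs ih =>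
    have ih := ih ((Finset.subset_insert _ _).trans hU)
    have hb := hU (Finset.mem_insert_self _ _)
    have := ih.starS (s := s) (Y := (τ.S1 ∪ τ.Tc).filter (G.Adj s)) ((hW s).2 (by grind)) hb
      (fun y hy => by
        have := (Finset.mem_union.1 (Finset.mem_filter.1 hy).1)
        exact ⟨(hW y).2 (by grind), this⟩)
    rw [LG.ae_ae] at this
    have e : (fromRel fun u v : ℕ => u ∈ insert s U ∧ v ∈ τ.S1 ∪ τ.Tc ∧ G.Adj u v) =
        (fromRel fun u v : ℕ => u ∈ U ∧ v ∈ τ.S1 ∪ τ.Tc ∧ G.Adj u v) ⊔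
          star s ((τ.S1 ∪ τ.Tc).filter (G.Adj s)) := by
      ext u v
      simp only [star, fromRel_adj, Finset.mem_insert, sup_adj, Finset.mem_filter]
      grind
    rw [e, Finset.sum_insert hs]
    refine this.weak ?_
    rw [cst_card G (v := s) (by have := τ.dj s; simp only [Finset.mem_union]; grind)]
    split_ifs <;> omega

theorem stageC (τ : Ty) {W S : Finset ℕ} {G : SimpleGraph ℕ}
    (hS : ∀ u, u ∈ S ↔ u ∈ τ.S1 ∨ u ∈ τ.Sb)
    (hG : ∀ a ∈ τ.Tc, ∃ p ∈ S, ∀ v, G.Adj a v ↔ v = p) (U : Finset ℕ) (hU : U ⊆ τ.Tc) :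
    ∀ k, τ.Q ⟨W, G, S ∪ U⟩ U k 0 → τ.Q ⟨W, G, S⟩ ∅ (k - 2 * U.card) 0 := by
  induction U using Finset.induction_on with
  | empty => intro k h; simpa using h
  | insert a U ha ih =>
    intro k h
    have hc := hU (Finset.mem_insert_self _ _)
    obtain ⟨p, p1, p2⟩ := hG a hc
    have h1 := h.turn (a := a) (p := p) (by simp) hc (by simp [p1]) ((hS p).1 p1) p2
      (by simp [(hS _).2 (Or.inr τ.hs0)])
    have e : (S ∪ insert a U).erase a = S ∪ U := by
      have : a ∉ S := by have := τ.dj a; have := hS a; grind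
      ext u
      simp only [Finset.mem_erase, Finset.mem_union, Finset.mem_insert]
      grind
    simp only [e, Finset.erase_insert ha] at h1
    refine (ih ((Finset.subset_insert _ _).trans hU) _ h1).weak ?_
    rw [Finset.card_insert_of_notMem ha]
    omega

theorem stageD (τ : Ty) {W S : Finset ℕ} {G0 : SimpleGraph ℕ} (G : SimpleGraph ℕ) {k : ℕ}
    (hW : ∀ u, u ∈ W ↔ u ∈ τ.S1 ∨ u ∈ τ.Sb ∨ u ∈ τ.Tc) (hS : ∀ u, u ∈ S ↔ u ∈ τ.S1 ∨ u ∈ τ.Sb)
    (hG : ∀ q ∈ τ.T0, ∃! p, p ∈ S ∧ G.Adj q p) (h : τ.Q ⟨W, G0, S⟩ ∅ k 0)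
    (U : Finset ℕ) (hU : U ⊆ τ.T0) :
    τ.Q ⟨W ∪ U, G0 ⊔ fromRel fun u v => u ∈ U ∧ v ∈ W ∧ G.Adj u v, S⟩ ∅
      (k - ∑ q ∈ U, cst G (τ.S1 ∪ τ.Tc) q) 0 := by
  classical
  induction U using Finset.induction_on with
  | empty =>
    have : (fromRel fun u v : ℕ => u ∈ (∅ : Finset ℕ) ∧ v ∈ W ∧ G.Adj u v) = ⊥ := by
      ext; simp
    rw [this]
    simpa using h
  | insert q U hq ih =>
    have ih := ih ((Finset.subset_insert _ _).trans hU)
    have hb := hU (Finset.mem_insert_self _ _)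
    obtain ⟨p, ⟨p1, p2⟩, p3⟩ := hG q hb
    have dj := τ.dj
    have tc : ∀ y ∈ τ.Tc, y ∈ LG.T ⟨W ∪ U,
        G0 ⊔ fromRel fun u v => u ∈ U ∧ v ∈ W ∧ G.Adj u v, S⟩ := fun y hy => by
      have := dj y
      have := hW y
      have := hS y
      simp only [LG.mem_T, Finset.mem_union]
      grind
    have h1 := ih.newT (q := q) (p := p) (Y := τ.Tc.filter (G.Adj q))
      (by have := dj q; have := hW q; simp only [Finset.mem_union]; grind) hb
      ((hS _).2 (Or.inr τ.hs0)) (tc _ τ.hz) p1 ((hS p).1 p1)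
      (fun y hy => ⟨tc y (Finset.mem_filter.1 hy).1, (Finset.mem_filter.1 hy).1⟩)
    have e : LG.add ⟨W ∪ U, G0 ⊔ fromRel fun u v => u ∈ U ∧ v ∈ W ∧ G.Adj u v, S⟩
        ⟨{q}, edge q p ⊔ star q (τ.Tc.filter (G.Adj q)), ∅⟩ =
        ⟨W ∪ insert q U, G0 ⊔ fromRel fun u v => u ∈ insert q U ∧ v ∈ W ∧ G.Adj u v, S⟩ := by
      refine LG.ext' (by simp) (fun u v => ?_) (by simp)
      have := hW u
      have := hW v
      have := hS u
      have := hS v
      have := p3 u
      have := p3 v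
      simp only [LG.add_G, sup_adj, star, fromRel_adj, edge_adj, Finset.mem_filter,
        Finset.mem_insert]
      grind
    rw [e] at h1
    refine h1.weak ?_
    rw [Finset.sum_insert hq,
      cst_card G (v := q) (by have := dj q; simp only [Finset.mem_union]; grind)]
    have key : ((τ.S1 ∪ τ.Tc).filter (G.Adj q)).card =
        (if p ∈ τ.S1 then 1 else 0) + (τ.Tc.filter (G.Adj q)).card := by
      rw [Finset.filter_union, Finset.card_union_of_disjoint]
      · congr 1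
        split_ifs with c
        · refine Finset.card_eq_one.2 ⟨p, ?_⟩
          ext u
          have := p3 u
          have := hS u
          simp only [Finset.mem_filter, Finset.mem_singleton]
          grind
        · refine Finset.card_eq_zero.2 (Finset.filter_eq_empty_iff.2 fun u hu hu' => c ?_)
          rw [← p3 u ⟨(hS u).2 (Or.inl hu), hu'⟩]
          exact hu
      · refine Finset.disjoint_left.2 fun u a b => (dj u).2.1 ?_
        exact ⟨(Finset.mem_filter.1 a).1, (Finset.mem_filter.1 b).1⟩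
    rw [key]
    simp only [← Finset.card_eq_zero]
    by_cases c : p ∈ τ.S1 <;> simp only [c, true_and, false_and, not_true_eq_false,
      not_false_eq_true, or_false, false_or, if_true, if_false] <;> split_ifs <;> omega

theorem build (τ : Ty) {C : LG} (hC : C.WF) (hS : ∀ u, u ∈ C.S ↔ u ∈ τ.S1 ∨ u ∈ τ.Sb)
    (hV : ∀ u, u ∈ C.V ↔ u ∈ τ.S1 ∨ u ∈ τ.Sb ∨ u ∈ τ.Tc ∨ u ∈ τ.T0)
    (hP : ∀ q ∈ C.V, q ∉ C.S → ∃! p, p ∈ C.S ∧ C.G.Adj q p)
    (hD : 0 ≤ C.ex (τ.S1 ∪ τ.Tc)) : ∃ L, (∀ g ∈ L, τ.OK ∅ g) ∧ PP C L := by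
  classical
  have dj := τ.dj
  set W := τ.S1 ∪ τ.Sb ∪ τ.Tc with hWd
  have hW : ∀ u, u ∈ W ↔ u ∈ τ.S1 ∨ u ∈ τ.Sb ∨ u ∈ τ.Tc := fun u => by simp [hWd]
  have hA := stageA τ W fun u hu => (hW u).1 hu
  have hB := stageB τ C.G hW hA τ.Sb subset_rfl
  have hB2 := hB.joinAll ((τ.Tc ×ˢ τ.S1).filter fun p => C.G.Adj p.1 p.2) (by
    intro p hp
    obtain ⟨a, b⟩ := Finset.mem_product.1 (Finset.mem_filter.1 hp).1
    have a' : p.1 ∈ W := (hW _).2 (by grind)
    have b' : p.2 ∈ W := (hW _).2 (by grind)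
    exact ⟨Or.inl ⟨a', b'⟩, [.leaf p.1, .leaf p.2], Or.inl (by simp [LG.guard, LG.ae, a', b']),
      by simp [Val, OK, LG.ae, a, b, a', b']⟩)
  have eW : W = C.S ∪ τ.Tc := by
    ext u; rw [hW, Finset.mem_union, hS]; grind
  simp only [LG.ae] at hB2
  nth_rewrite 2 [eW] at hB2
  have hC2 := stageC τ hS (by
    intro a ha
    obtain ⟨p, ⟨p1, p2⟩, p3⟩ := hP a ((hV a).2 (by grind)) (by have := dj a; have := hS a; grind)
    refine ⟨p, p1, fun v => ?_⟩
    have := p3 v
    have := hS v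
    have := hS p
    have := dj a
    have := dj v
    have := C.G.adj_comm a v
    have := p2.ne
    simp only [sup_adj, bot_adj, fromRel_adj, Finset.mem_filter, Finset.mem_product,
      Finset.mem_union]
    grind) τ.Tc subset_rfl _ hB2
  have hD2 := stageD τ C.G hW hS (fun q hq => hP q ((hV q).2 (by grind))
    (by have := dj q; have := hS q; grind)) hC2 τ.T0 subset_rfl
  have eV : W ∪ τ.T0 = C.V := by
    ext u; rw [hV, Finset.mem_union, hW]; grind
  rw [eV] at hD2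
  have hE := hD2.joinAll ((C.V ×ˢ C.V).filter fun p => C.G.Adj p.1 p.2 ∧
    (p.1 ∈ τ.S1 ∧ p.2 ∈ τ.S1 ∨ p.1 ∈ τ.Sb ∧ p.2 ∈ τ.Sb ∨ p.1 ∈ τ.Tc ∧ p.2 ∈ τ.Tc ∨
      p.1 ∈ τ.T0 ∧ p.2 ∈ τ.T0)) (by
    rintro ⟨u, v⟩ hp
    obtain ⟨a, b⟩ := Finset.mem_product.1 (Finset.mem_filter.1 hp).1
    have z1 : τ.z ∈ C.V := (hV _).2 (by have := τ.hz; grind)
    have z2 : τ.z ∉ C.S := by have := τ.hz; have := dj τ.z; have := hS τ.z; grind
    have s1 : τ.s0 ∈ C.S := (hS _).2 (Or.inr τ.hs0)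
    simp only at a b
    rcases (Finset.mem_filter.1 hp).2.2 with ⟨c, d⟩ | ⟨c, d⟩ | ⟨c, d⟩ | ⟨c, d⟩ <;>
      simp only at c d
    · have c' := (hS u).2 (Or.inl c)
      have d' := (hS v).2 (Or.inl d)
      exact ⟨Or.inl ⟨c', d'⟩, _, Or.inl rfl, by simp [LG.guard, Val, OK, c, d, c', d']⟩
    · have c' := (hS u).2 (Or.inr c)
      have d' := (hS v).2 (Or.inr d)
      exact ⟨Or.inl ⟨c', d'⟩, _, Or.inr ⟨τ.z, rfl⟩,
        by simp [LG.lk, Val, OK, c, d, c', d', z1, z2, τ.hz]⟩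
    · have c' : u ∉ C.S := by have := dj u; have := hS u; grind
      have d' : v ∉ C.S := by have := dj v; have := hS v; grind
      exact ⟨Or.inr (by simp [a, b, c', d']), _, Or.inr ⟨τ.s0, rfl⟩,
        by simp [LG.lk, Val, OK, a, b, c, d, c', d', s1, τ.hs0]⟩
    · have c' : u ∉ C.S := by have := dj u; have := hS u; grind
      have d' : v ∉ C.S := by have := dj v; have := hS v; grind
      exact ⟨Or.inr (by simp [a, b, c', d']), _, Or.inl rfl,
        by simp [LG.guard, Val, OK, a, b, c, d, c', d']⟩)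
  have eC : ∀ G' : SimpleGraph ℕ, (∀ u v, G'.Adj u v ↔ C.G.Adj u v) →
      (⟨C.V, G', C.S⟩ : LG) = C := fun G' h => LG.ext' rfl h rfl
  simp only [LG.ae] at hE
  rw [eC _ (by
    intro u v
    have := hC.2 u v
    have := hC.2 v u
    have := hV u
    have := hV v
    have := hW u
    have := hW v
    have := C.G.adj_comm u v
    have := @SimpleGraph.Adj.ne _ C.G u v
    simp only [sup_adj, bot_adj, fromRel_adj, Finset.mem_filter, Finset.mem_product,
      Finset.mem_union]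
    grind)] at hE
  -- the count
  have d1 : Disjoint τ.S1 τ.Sb := Finset.disjoint_left.2 fun u a b => (dj u).1 ⟨a, b⟩
  have d2 : Disjoint (τ.S1 ∪ τ.Sb) τ.Tc := Finset.disjoint_left.2 fun u a b => by
    have := dj u; rw [Finset.mem_union] at a; grind
  have d3 : Disjoint W τ.T0 := Finset.disjoint_left.2 fun u a b => by
    have := dj u; rw [hW] at a; grind
  have c1 : ∑ v ∈ τ.S1, cst C.G (τ.S1 ∪ τ.Tc) v = 2 * τ.S1.card := by
    rw [Finset.sum_congr rfl fun v hv => cst_mem C.G (Finset.mem_union_left _ hv)]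
    simp [mul_comm]
  have c2 : ∑ v ∈ τ.Tc, cst C.G (τ.S1 ∪ τ.Tc) v = 2 * τ.Tc.card := by
    rw [Finset.sum_congr rfl fun v hv => cst_mem C.G (Finset.mem_union_right _ hv)]
    simp [mul_comm]
  have c3 : ∑ v ∈ τ.Sb, (1 - cst C.G (τ.S1 ∪ τ.Tc) v) + ∑ v ∈ τ.Sb, cst C.G (τ.S1 ∪ τ.Tc) v =
      τ.Sb.card := by
    rw [← Finset.sum_add_distrib, Finset.card_eq_sum_ones]
    refine Finset.sum_congr rfl fun v hv => ?_
    have := cst_le_one C.G (D := τ.S1 ∪ τ.Tc) (v := v)
      (by have := dj v; rw [Finset.mem_union]; grind)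
    omega
  have c4 : C.S.card = τ.S1.card + τ.Sb.card := by
    rw [← Finset.card_union_of_disjoint d1]
    congr 1
    ext u; rw [hS, Finset.mem_union]
  have c5 : (W ∩ τ.Sb).card ≤ τ.Sb.card := Finset.card_le_card Finset.inter_subset_right
  unfold LG.ex LG.wt at hD
  rw [← eV, Finset.sum_union d3, hWd, Finset.sum_union d2, Finset.sum_union d1, c1, c2, c4] at hD
  obtain ⟨Tok, L, a, -, b, c⟩ := hE.weak (k' := 0) (by omega)
  obtain rfl : Tok = 0 := Multiset.card_eq_zero.1 (by omega)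
  exact ⟨L, b, by simpa using c⟩

end Ty

end Pool.Agent.Work.MP_4489ea_co.HJ
end

-- merged part: Pool.Agent.Work.MP_4489ea_co.HJ.Main
section
/-!
Completeness of the eight operations.
-/

namespace Pool.Agent.Work.MP_4489ea_co.HJ

open SimpleGraph

theorem Good.uniq {C : LG} (h : Good C) {q : ℕ} (hq : q ∈ C.V) (hq' : q ∉ C.S) :
    ∃! p, p ∈ C.S ∧ C.G.Adj q p := by
  by_contra hc
  have h1 := h.pds
  have h2 : C.wt C.S = ∑ v ∈ C.V \ C.S, cst C.G C.S v + ∑ v ∈ C.S, cst C.G C.S v :=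
    (Finset.sum_sdiff h.wf.1).symm
  have h3 : ∑ v ∈ C.S, cst C.G C.S v = 2 * C.S.card := by
    rw [Finset.sum_congr rfl fun v hv => cst_mem C.G hv]
    simp [mul_comm]
  have h4 := Finset.single_le_sum (f := cst C.G C.S) (fun _ _ => Nat.zero_le _)
    (Finset.mem_sdiff.2 ⟨hq, hq'⟩)
  rw [cst_bad _ hq' hc] at h4
  unfold LG.ex at h1
  omega

theorem two_state {C : LG} (h : Good C) {a l : ℕ} (ha : a ∉ C.V) (hl : l ∉ C.V) (hal : a ≠ l)
    (B : Finset ℕ) : ∃ (Lk : List (ℕ × ℕ)) (Lg : Multiset ℕ),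
      (∀ p ∈ Lk, (p.1 ∈ B ∨ p.1 = a) ∧ (p.2 ∈ B ∧ p.2 ∈ C.V ∨ p.2 = l)) ∧
      (∀ v ∈ Lg, v ∈ C.V ∧ v ∉ B) ∧
      PP (C.addK2 a l) (↑(Lk.map fun p => Gad.link p.1 p.2) + Lg.map C.guard) := by
  have hS := h.wf.1
  let τ : Ty :=
    { S1 := C.S \ B, Sb := insert a (C.S ∩ B), Tc := insert l (C.T ∩ B), T0 := C.T \ B,
      s0 := a, z := l, hs0 := by simp, hz := by simp,
      dj := fun v => by
        have := @hS v
        simp only [Finset.mem_sdiff, Finset.mem_insert, Finset.mem_inter, LG.mem_T]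
        grind }
  have g := h.k2 ha hl hal
  obtain ⟨L, h1, h2⟩ := τ.build g.wf
    (fun u => by
      simp only [τ, LG.addK2_S, Finset.mem_union, Finset.mem_singleton, Finset.mem_sdiff,
        Finset.mem_insert, Finset.mem_inter]
      grind)
    (fun u => by
      have := @hS u
      simp only [τ, LG.addK2_V, Finset.mem_union, Finset.mem_singleton, Finset.mem_sdiff,
        Finset.mem_insert, Finset.mem_inter, LG.mem_T]
      grind)
    (fun q a b => g.uniq a b) (g.opt _)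
  have key : ∃ (Lk : List (ℕ × ℕ)) (Lg : Multiset ℕ),
      (∀ p ∈ Lk, (p.1 ∈ B ∨ p.1 = a) ∧ (p.2 ∈ B ∧ p.2 ∈ C.V ∨ p.2 = l)) ∧
      (∀ v ∈ Lg, v ∈ C.V ∧ v ∉ B) ∧
      L = ↑(Lk.map fun p => Gad.link p.1 p.2) + Lg.map C.guard := by
    clear h2
    induction L using Multiset.induction_on with
    | empty => exact ⟨[], 0, by simp, by simp, by simp⟩
    | cons g L ih =>
      obtain ⟨Lk, Lg, b1, b2, rfl⟩ := ih fun g hg => h1 g (Multiset.mem_cons_of_mem hg)
      have := h1 g (Multiset.mem_cons_self _ _)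
      cases g with
      | leaf s =>
        simp only [Ty.OK, τ, Finset.notMem_empty, or_false, Finset.mem_sdiff] at this
        refine ⟨Lk, s ::ₘ Lg, b1, ?_, ?_⟩
        · intro v hv
          rcases Multiset.mem_cons.1 hv with rfl | hv
          · exact ⟨hS this.1, this.2⟩
          · exact b2 v hv
        · simp [LG.guard, this.1]
      | link s x =>
        simp only [Ty.OK, τ, Finset.mem_insert, Finset.mem_inter, LG.mem_T] at this
        refine ⟨(s, x) :: Lk, Lg, ?_, b2, ?_⟩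
        · intro p hp
          rcases List.mem_cons.1 hp with rfl | hp
          · tauto
          · exact b1 p hp
        · rw [List.map_cons, ← Multiset.cons_coe, Multiset.cons_add]
      | claw x =>
        simp only [Ty.OK, τ, Finset.mem_sdiff, LG.mem_T] at this
        refine ⟨Lk, x ::ₘ Lg, b1, ?_, ?_⟩
        · intro v hv
          rcases Multiset.mem_cons.1 hv with rfl | hv
          · exact ⟨this.1.1, this.2⟩
          · exact b2 v hv
        · simp [LG.guard, this.1.2]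
  obtain ⟨Lk, Lg, b1, b2, rfl⟩ := key
  exact ⟨Lk, Lg, b1, b2, h2⟩

theorem val_guard {C : LG} {v : ℕ} (hv : v ∈ C.V) : Val C (C.guard v) := by
  unfold LG.guard
  split_ifs with c
  · exact c
  · exact ⟨hv, c⟩

theorem Good.gen {C : LG} (h : Good C) : Gen C := by
  classical
  obtain ⟨n, hn⟩ := C.V.bddAbove
  have fr : ∀ k, n + (k + 1) ∉ C.V := fun k c => by
    have := hn (Finset.mem_coe.2 c)
    omega
  have ha : n + 1 ∉ C.V := fr 0
  have hl : n + 2 ∉ C.V := fr 1
  have hal : n + 1 ≠ n + 2 := by omega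
  generalize n + 1 = a at ha hal
  generalize n + 2 = l at hl hal
  choose Lk Lg b1 b2 b3 using two_state h ha hl hal
  obtain ⟨M, hM⟩ : ∃ M, ∀ B ⊆ C.V, (Lg B).card ≤ M :=
    ⟨C.V.powerset.sup fun B => (Lg B).card, fun B hB =>
      Finset.le_sup (f := fun B => (Lg B).card) (Finset.mem_powerset.2 hB)⟩
  have sV : C.V ⊆ (C.addK2 a l).V := Finset.subset_union_left
  have vg : ∀ v ∈ C.V, Val (C.addK2 a l) (C.guard v) := fun v hv =>
    (val_guard hv).ext h.wf sV fun u hu => by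
      have : u ≠ a := fun e => ha (e ▸ hu)
      simp [this]
  have key : ∀ (m : ℕ) (N : Multiset ℕ), ∑ v ∈ C.V, (M - N.count v) = m → (∀ v ∈ N, v ∈ C.V) →
      ∀ Λ : Multiset NG, Λ.map NG.g = N.map C.guard → Fresh (C.addK2 a l).V Λ →
        Gen (C.pk Λ) := by
    intro m
    induction m using Nat.strong_induction_on with
    | _ m ih =>
    intro N hm hN Λ e f
    set B := C.V.filter fun v => N.count v < M with hB
    have f0 : Fresh C.V Λ := f.mono sV
    have vN : ∀ g ∈ N.map C.guard, Val C g := fun g hg => by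
      obtain ⟨v, hv, rfl⟩ := Multiset.mem_map.1 hg
      exact val_guard (hN v hv)
    have w := wf_pk h.wf f0 (val_of_map vN e)
    have le : Lg B ≤ N := Multiset.le_iff_count.2 fun v => by
      by_cases c : v ∈ Lg B
      · have c1 := b2 B v c
        have c2 := hM B (Finset.filter_subset _ _)
        have c3 := Multiset.count_le_card v (Lg B)
        have c4 : ¬ N.count v < M := fun d => c1.2 (Finset.mem_filter.2 ⟨c1.1, d⟩)
        omega
      · rw [Multiset.count_eq_zero_of_notMem c]; omega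
    have p1 := (b3 B).mono (L' := ↑((Lk B).map fun p => Gad.link p.1 p.2) + N.map C.guard)
      (add_le_add_right (Multiset.map_le_map le) _) (fun g hg => by
        rcases Multiset.mem_add.1 hg with hg | hg
        · exact (b3 B).val g (Multiset.mem_add.2 (Or.inl hg))
        · obtain ⟨v, hv, rfl⟩ := Multiset.mem_map.1 hg
          exact vg v (hN v hv))
    have e1 : (C.addK2 a l).pk Λ = (C.pk Λ).addK2 a l := LG.add_pk _ _ _
    have na : a ∉ (C.pk Λ).V := by
      rw [LG.mem_pk_V]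
      exact fun c => c.elim ha fun c => f.2 a c (by simp)
    have nl : l ∉ (C.pk Λ).V := by
      rw [LG.mem_pk_V]
      exact fun c => c.elim hl fun c => f.2 l c (by simp)
    have p2 := p1.recore e f
    rw [e1] at p2
    refine elim_links w na nl hal B (fun v hv => C.sub_pk Λ (Finset.mem_filter.1 hv).1) (Lk B)
      (fun p hp => ⟨(b1 B p hp).1, (b1 B p hp).2.imp_left And.left⟩) p2 fun v hv => ?_
    obtain ⟨hv', hc⟩ := Finset.mem_filter.1 hv
    rw [guard_pk f0 hv', ← e1]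
    refine ⟨e1 ▸ p2.wf, by simpa using (vg v hv').pk p1.wf f, fun Λ' e' f' => ?_⟩
    have f1 := (fresh_add _ _ _).2 ⟨f', f⟩
    have g1 : Gen (C.pk (Λ' + Λ)) := by
      refine ih _ ?_ (v ::ₘ N) rfl ?_ _
        (by rw [Multiset.map_add, e, e', Multiset.singleton_add, Multiset.map_cons]) f1
      · rw [← hm]
        refine Finset.sum_lt_sum (fun u _ => ?_) ⟨v, hv', ?_⟩
        · have := Multiset.count_le_count_cons u v N
          omega
        · rw [Multiset.count_cons_self]; omega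
      · intro u hu
        rcases Multiset.mem_cons.1 hu with rfl | hu
        · exact hv'
        · exact hN u hu
    have e2 : (C.addK2 a l).pk (Λ' + Λ) = (C.pk (Λ' + Λ)).addK2 a l := LG.add_pk _ _ _
    rw [← LG.pk_add, e2]
    refine Gen.o1 g1 ?_ ?_ hal
    · rw [LG.mem_pk_V]
      exact fun c => c.elim ha fun c => f1.2 a c (by simp)
    · rw [LG.mem_pk_V]
      exact fun c => c.elim hl fun c => f1.2 l c (by simp)
  exact key _ 0 rfl (by simp) 0 rfl (by simp [Fresh])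

theorem gen_iff_good (C : LG) : Gen C ↔ Good C := ⟨Gen.good, Good.gen⟩

theorem wt_map {n : ℕ} (G : SimpleGraph (Fin n)) (S : Finset ℕ) (D : Finset (Fin n)) :
    LG.wt ⟨Finset.range n, G.map Fin.valEmbedding, S⟩ (D.map Fin.valEmbedding) = wt G D := by
  unfold LG.wt wt
  rw [Finset.sum_range]
  refine Finset.sum_congr rfl fun v _ => ?_
  have h1 : (v : ℕ) ∈ D.map Fin.valEmbedding ↔ v ∈ D := Finset.mem_map' Fin.valEmbedding
  have h2 : (∃! u, u ∈ D.map Fin.valEmbedding ∧ (G.map Fin.valEmbedding).Adj v u) ↔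
      ∃! u, u ∈ D ∧ G.Adj v u := by
    have ad : ∀ u : Fin n, (G.map Fin.valEmbedding).Adj v u ↔ G.Adj v u := fun u =>
      SimpleGraph.map_adj_apply (f := Fin.valEmbedding)
    constructor
    · rintro ⟨u, ⟨a, b⟩, c⟩
      obtain ⟨u, a', rfl⟩ := Finset.mem_map.1 a
      refine ⟨u, ⟨a', (ad u).1 b⟩, fun y hy => Fin.ext ?_⟩
      exact c y ⟨Finset.mem_map_of_mem _ hy.1, (ad y).2 hy.2⟩
    · rintro ⟨u, ⟨a, b⟩, c⟩
      refine ⟨u, ⟨Finset.mem_map_of_mem Fin.valEmbedding a, (ad u).2 b⟩, fun y hy => ?_⟩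
      obtain ⟨y, a', rfl⟩ := Finset.mem_map.1 hy.1
      exact congrArg Fin.val (c y ⟨a', (ad y).1 hy.2⟩)
  by_cases c : v ∈ D
  · rw [cst_mem _ (h1.2 c), cst_mem _ c]
  · by_cases d : ∃! u, u ∈ D ∧ G.Adj v u
    · rw [cst_good _ (fun e => c (h1.1 e)) (h2.2 d), cst_good _ c d]
    · rw [cst_bad _ (fun e => c (h1.1 e)) fun e => d (h2.1 e), cst_bad _ c d]

theorem exists_map {n : ℕ} (D : Finset ℕ) :
    ∃ D' : Finset (Fin n), ∀ v, v ∈ D'.map Fin.valEmbedding ↔ v ∈ D ∧ v ∈ Finset.range n := by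
  refine ⟨Finset.univ.filter fun v => v.1 ∈ D, fun v => ?_⟩
  simp only [Finset.mem_map, Finset.mem_filter, Finset.mem_univ, true_and, Finset.mem_range,
    Fin.valEmbedding_apply]
  exact ⟨fun ⟨u, a, b⟩ => b ▸ ⟨a, u.2⟩, fun ⟨a, b⟩ => ⟨⟨v, b⟩, a, rfl⟩⟩

theorem main {n : ℕ} (G : SimpleGraph (Fin n)) :
    PerfectRoman G ↔ ∃ S, Gen ⟨Finset.range n, G.map Fin.valEmbedding, S⟩ := by
  have hw : ∀ u v, (G.map Fin.valEmbedding).Adj u v → u ∈ Finset.range n := by
    intro u v h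
    obtain ⟨a, b, -, rfl, -⟩ := (SimpleGraph.map_adj _ _ _ _).1 h
    exact Finset.mem_range.2 a.2
  rw [pr_iff]
  constructor
  · rintro ⟨S, h1, h2⟩
    refine ⟨S.map Fin.valEmbedding, Good.gen ⟨⟨fun v hv => ?_, hw⟩, ?_, fun D => ?_⟩⟩
    · obtain ⟨u, -, rfl⟩ := Finset.mem_map.1 hv
      exact Finset.mem_range.2 u.2
    · unfold LG.ex
      rw [wt_map, wt_pds G h1, Finset.card_map]
      omega
    · obtain ⟨D', e⟩ := exists_map (n := n) D
      unfold LG.ex
      rw [wt_congr hw (D' := D'.map Fin.valEmbedding) fun v hv => by rw [e]; tauto, wt_map,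
        Finset.card_map]
      have := h2 D'
      rw [wt_pds G h1] at this
      omega
  · rintro ⟨S, h⟩
    have h := h.good
    obtain ⟨S', e⟩ := exists_map (n := n) S
    obtain rfl : S = S'.map Fin.valEmbedding := by
      ext v
      rw [e]
      exact ⟨fun a => ⟨a, h.wf.1 a⟩, fun a => a.1⟩
    have h1 : IsPDS G S' := by
      intro v hv
      obtain ⟨p, ⟨a, b⟩, c⟩ := h.uniq (q := v) (Finset.mem_range.2 v.2)
        fun d => hv ((Finset.mem_map' Fin.valEmbedding).1 d)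
      obtain ⟨u, a', rfl⟩ := Finset.mem_map.1 a
      refine ⟨u, ⟨a', (SimpleGraph.map_adj_apply (f := Fin.valEmbedding)).1 b⟩,
        fun y hy => Fin.ext (c y ⟨Finset.mem_map_of_mem _ hy.1, ?_⟩)⟩
      exact (SimpleGraph.map_adj_apply (f := Fin.valEmbedding)).2 hy.2
    refine ⟨S', h1, fun D => ?_⟩
    have := h.opt (D.map Fin.valEmbedding)
    unfold LG.ex at this
    rw [wt_map, Finset.card_map] at this
    rw [wt_pds G h1]
    omega

end Pool.Agent.Work.MP_4489ea_co.HJ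
end
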